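import Mathlib

/-!
# Values coprime to a given modulus
-/

set_option autoImplicit false

namespace Pool.Agent.Q106.UV

/-- If a function compatible with congruences takes a value prime to every prime, it takes a value prime to `Q`. -/
theorem exists_cop (G : ℕ → ℕ) (hG : ∀ k x y : ℕ, x ≡ y [MOD k] → G x ≡ G y [MOD k])
    (hp : ∀ p : ℕ, p.Prime → ∃ x, (G x).Coprime p) (Q : ℕ) (hQ : 1 ≤ Q) : ∃ x < Q, (G x).Coprime Q := by
  have key : ∀ Q : ℕ, 0 < Q → ∃ x, (G x).Coprime Q := by
    intro Q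
    induction Q using Nat.recOnPosPrimePosCoprime with
    | prime_pow p n hpp hn =>
      intro _
      obtain ⟨x, hx⟩ := hp p hpp
      exact ⟨x, Nat.Coprime.pow_right n hx⟩
    | zero => intro h; exact absurd h (lt_irrefl 0)
    | one => intro _; exact ⟨0, Nat.coprime_one_right _⟩
    | coprime a b ha hb hab iha ihb =>
      intro _
      obtain ⟨x, hx⟩ := iha (by omega)
      obtain ⟨y, hy⟩ := ihb (by omega)
      obtain ⟨z, hz1, hz2⟩ := Nat.chineseRemainder hab x y
      refine ⟨z, Nat.Coprime.mul_right ?_ ?_⟩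
      · have h1 := (hG a z x hz1).gcd_eq
        unfold Nat.Coprime at hx ⊢
        rw [h1, hx]
      · have h1 := (hG b z y hz2).gcd_eq
        unfold Nat.Coprime at hy ⊢
        rw [h1, hy]
  obtain ⟨x, hx⟩ := key Q hQ
  refine ⟨x % Q, Nat.mod_lt _ hQ, ?_⟩
  have h1 := (hG Q (x % Q) x (Nat.mod_modEq x Q)).gcd_eq
  unfold Nat.Coprime at hx ⊢
  rw [h1, hx]

end Pool.Agent.Q106.UV
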