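import Pool.Agent.Q106.UV.Fun2
import Pool.Agent.Q106.UV.Cop

/-!
# Systems of increasing functions: the overlaps
-/

set_option autoImplicit false

namespace Pool.Agent.Q106.UV

open Finset

variable {σ : Type*} {r : ℕ} {S : Fin r → Finset σ} {f : ℕ → Fin r → σ → ℕ → ℕ} {a b : ℕ → Fin r → ℕ}

/-- No overlaps. -/
theorem ovc_zero {n n' : ℕ} (h : ∀ i m i' m', a n i ≤ m → m < b n i → a n' i' ≤ m' → m' < b n' i' →
    ft (S i) (f n i) m ≠ ft (S i') (f n' i') m') : ovc S f a b n n' = 0 := by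
  classical
  unfold ovc
  rw [card_eq_zero, filter_eq_empty_iff]
  rintro ⟨i, m⟩ hx ⟨i', m', h1, h2, h3⟩
  rw [mem_sigma, mem_Ico] at hx
  exact h i m i' m' hx.2.1 hx.2.2 h1 h2 h3

/-- A bound for the overlaps. -/
theorem ovc_le {n n' : ℕ} {K : ℝ} (h : ∀ i, ∀ P : Finset ℕ, (∀ m ∈ P, (a n i ≤ m ∧ m < b n i) ∧ ∃ i' m', a n' i' ≤ m' ∧
    m' < b n' i' ∧ ft (S i) (f n i) m = ft (S i') (f n' i') m') → (P.card : ℝ) ≤ K) : (ovc S f a b n n' : ℝ) ≤ r * K := by
  classical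
  unfold ovc
  have h1 : (((univ : Finset (Fin r)).sigma (fun i => Ico (a n i) (b n i))).filter (fun x : (_ : Fin r) × ℕ =>
      ∃ i' m', a n' i' ≤ m' ∧ m' < b n' i' ∧ ft (S x.1) (f n x.1) x.2 = ft (S i') (f n' i') m')) =
      (univ : Finset (Fin r)).sigma (fun i => (Ico (a n i) (b n i)).filter (fun m =>
        ∃ i' m', a n' i' ≤ m' ∧ m' < b n' i' ∧ ft (S i) (f n i) m = ft (S i') (f n' i') m')) := by
    ext x
    simp only [mem_filter, mem_sigma, mem_univ, true_and]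
  rw [h1, card_sigma]
  push_cast
  have h2 : ∀ i ∈ (univ : Finset (Fin r)), (((Ico (a n i) (b n i)).filter (fun m =>
      ∃ i' m', a n' i' ≤ m' ∧ m' < b n' i' ∧ ft (S i) (f n i) m = ft (S i') (f n' i') m')).card : ℝ) ≤ K := by
    intro i _
    refine h i _ (fun m hm => ?_)
    rw [mem_filter, mem_Ico] at hm
    exact hm
  refine (sum_le_sum h2).trans (le_of_eq ?_)
  rw [sum_const, card_univ, Fintype.card_fin, nsmul_eq_mul]

end Pool.Agent.Q106.UV
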