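import Pool.Agent.Q106.UV.Law
import Pool.Agent.Q106.CH.Bs

/-!
# The law for families with small overlaps: conditions
-/

set_option autoImplicit false

namespace Pool.Agent.Q106.UV

open Finset MeasureTheory ProbabilityTheory Filter Pool.Agent.Q120.GM Pool.Agent.Q106.UR Pool.Agent.Q106.MD
  Pool.Agent.Q106.CH
open scoped Topology

variable {Ω : Type*} [MeasurableSpace Ω] {μ : Measure Ω} [IsProbabilityMeasure μ] {ι κ : Type*} [DecidableEq ι]
  [DecidableEq κ] {p : ι → ℝ} {A : Ω → Set ι} {r : ℕ}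

/-- **The conditions on the blocks.** -/
theorem bm_of (hA : IsModel μ p A) {J : ℕ → Fin r → Finset κ} {T : ℕ → Fin r → κ → Finset ι} {e : ℕ → Fin r → ℝ}
    {e₀ : ℕ → ℝ} {D D' γ : ℝ} {k : ℕ} (hS : PSys p atTop J T e e₀ (fun n : ℕ => Real.log n) D)
    (hk : ∀ n i, ∀ j ∈ J n i, (T n i j).card ≤ k) (hγ : 0 < γ) (h1 : ∀ᶠ n : ℕ in atTop, (n : ℝ) ^ γ ≤ e₀ n)
    (h2 : ∀ᶠ n : ℕ in atTop, ((univ.sigma (J n)).card : ℝ) ^ 2 * (n : ℝ) ^ γ ≤ e₀ n ^ 3) (hD' : 1 ≤ D')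
    (hdeg : ∀ᶠ n : ℕ in atTop, ∀ n' : ℕ, n ≤ 2 * n' → n' ≤ 2 * n → ∀ i, ∀ j ∈ J n i,
      (((univ.sigma (J n')).filter (fun x => ¬ Disjoint (T n' x.1 x.2) (T n i j))).card : ℝ) ≤ D')
    (hcr : ∀ᶠ n : ℕ in atTop, ∀ n' : ℕ, n < n' → n' ≤ 2 * n →
      Gc p J T n n' * (n : ℝ) ^ γ ≤ Real.sqrt (e₀ n) * Real.sqrt (e₀ n')) : BM μ p A J T := by
  intro B hB0
  have hlog2 := Real.log_pos (show (1 : ℝ) < 2 by norm_num)
  obtain ⟨K, hK⟩ : ∃ K, K = 116 * D' ^ 2 * B ^ 3 + 112 * D' * B + B + 1 := ⟨_, rfl⟩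
  have hK0 : 0 < K := by rw [hK]; positivity
  refine ⟨fun m => Real.exp (-((m : ℝ) * Real.log 2 * (γ / 4))), exp_sum (by positivity), ?_⟩
  obtain ⟨M₁, hM₁⟩ := eventually_atTop.1 ((h1.and (h2.and (hS.le.and (vs_close hA hS hk (η := 1 / 2) (by norm_num)
    (by norm_num))))).and (hdeg.and hcr))
  have hgrow := log2_tendsto.eventually (cube_le_exp (c := γ / 2) (by positivity) (64 * K ^ 2))
  have hgrow2 := log2_tendsto.eventually_ge_atTop (4 / γ)
  filter_upwards [hgrow, hgrow2, log2_tendsto.eventually_ge_atTop 1, eventually_ge_atTop M₁, eventually_ge_atTop 1]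
    with m g1 g2 g3 g4 g0
  obtain ⟨L, hL⟩ : ∃ L, L = (m : ℝ) * Real.log 2 := ⟨_, rfl⟩
  rw [← hL] at g1 g2 g3 ⊢
  have hL0 : 0 < L := by linarith
  obtain ⟨E, hE⟩ : ∃ E, E = Real.exp (-(L * (γ / 4))) := ⟨_, rfl⟩
  rw [← hE]
  have hE0 : 0 < E := by rw [hE]; exact Real.exp_pos _
  have hE2 : E ^ 2 * Real.exp (γ / 2 * L) = 1 := by
    rw [hE, ← Real.exp_nat_mul, ← Real.exp_add, ← Real.exp_zero]
    congr 1
    push_cast
    ring
  have hE12 : E ≤ 1 / 2 := by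
    have e1 : 1 ≤ L * (γ / 4) := by
      have := mul_le_mul_of_nonneg_right g2 (by positivity : 0 ≤ γ / 4)
      have e2 : 4 / γ * (γ / 4) = 1 := by field_simp
      linarith
    have e2 : E ≤ Real.exp (-1) := by
      rw [hE]
      exact Real.exp_le_exp.2 (by linarith)
    have e3 : Real.exp (-1) ≤ 1 / 2 := by
      rw [Real.exp_neg]
      have := Real.add_one_le_exp (1 : ℝ)
      rw [inv_le_comm₀ (Real.exp_pos _) (by norm_num)]
      linarith
    linarith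
  have hγ2 : Real.exp (γ * L) = Real.exp (γ / 2 * L) * Real.exp (γ / 2 * L) := by
    rw [← Real.exp_add]
    congr 1
    ring
  have hn : ∀ n ∈ Ico (2 ^ m) (2 ^ (m + 1)), 1 ≤ e₀ n ∧ Real.exp (γ * L) ≤ e₀ n ∧
      ((univ.sigma (J n)).card : ℝ) ^ 2 * Real.exp (γ * L) ≤ e₀ n ^ 3 ∧ (∀ i, e₀ n ≤ 2 * Vs p J T n i) ∧
      Real.exp (γ * L) ≤ (n : ℝ) ^ γ := by
    intro n hn
    rw [mem_Ico] at hn
    have h5 : m < 2 ^ m := Nat.lt_two_pow_self
    obtain ⟨⟨a1, a2, a3, a4⟩, -⟩ := hM₁ n (by omega)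
    have hn1 : (2 : ℝ) ^ m ≤ n := by exact_mod_cast hn.1
    have e1 : Real.exp (γ * L) ≤ (n : ℝ) ^ γ := by
      have e2 : Real.exp (γ * L) = ((2 : ℝ) ^ m) ^ γ := by
        rw [Real.rpow_def_of_pos (by positivity), Real.log_pow, hL]
        congr 1
        ring
      rw [e2]
      exact Real.rpow_le_rpow (by positivity) hn1 hγ.le
    have e2 : 1 ≤ Real.exp (γ * L) := Real.one_le_exp (by positivity)
    refine ⟨by linarith, by linarith, ?_, fun i => ?_, e1⟩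
    · refine le_trans (mul_le_mul_of_nonneg_left e1 (sq_nonneg _)) a2
    · have := (a4 i).1
      have := a3 i
      linarith
  obtain ⟨g, hg⟩ : ∃ g : ℕ → ℝ, g = fun n => Real.sqrt (L / e₀ n) := ⟨_, rfl⟩
  have hg0 : ∀ n, 0 ≤ g n := fun n => by rw [hg]; exact Real.sqrt_nonneg _
  have hg2 : ∀ n ∈ Ico (2 ^ m) (2 ^ (m + 1)), g n ^ 2 = L / e₀ n := by
    intro n hn'
    have := (hn n hn').1
    rw [hg]
    exact Real.sq_sqrt (by positivity)
  have hL1 : 1 ≤ L := g3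
  have hL3 : L ≤ L ^ 3 := by nlinarith [sq_nonneg L]
  -- the size of `g`
  have hgs : ∀ n ∈ Ico (2 ^ m) (2 ^ (m + 1)), K * g n ≤ E / 8 := by
    intro n hn'
    obtain ⟨a1, a2, a3, a4, a5⟩ := hn n hn'
    refine le_of_sq_le_sq ?_ (by positivity)
    rw [mul_pow, hg2 n hn', div_pow]
    have e1 : L / e₀ n ≤ L / Real.exp (γ * L) := div_le_div_of_nonneg_left hL0.le (Real.exp_pos _) a2
    have e2 : K ^ 2 * (L / e₀ n) ≤ K ^ 2 * (L / Real.exp (γ * L)) := mul_le_mul_of_nonneg_left e1 (sq_nonneg K)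
    refine e2.trans ?_
    rw [mul_div_assoc', div_le_div_iff₀ (Real.exp_pos _) (by norm_num), hγ2]
    have e4 : E ^ 2 * (Real.exp (γ / 2 * L) * Real.exp (γ / 2 * L)) = Real.exp (γ / 2 * L) := by
      rw [← mul_assoc, hE2, one_mul]
    rw [e4]
    have e5 : K ^ 2 * L * 8 ^ 2 = 64 * K ^ 2 * L := by ring
    rw [e5]
    refine le_trans ?_ g1
    exact mul_le_mul_of_nonneg_left hL3 (by positivity)
  have hg3 : ∀ n ∈ Ico (2 ^ m) (2 ^ (m + 1)), K * (g n ^ 3 * ((univ.sigma (J n)).card : ℝ)) ≤ E / 8 := by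
    intro n hn'
    obtain ⟨a1, a2, a3, a4, a5⟩ := hn n hn'
    refine le_of_sq_le_sq ?_ (by positivity)
    have e1 : (K * (g n ^ 3 * ((univ.sigma (J n)).card : ℝ))) ^ 2 =
        K ^ 2 * ((g n ^ 2) ^ 3 * ((univ.sigma (J n)).card : ℝ) ^ 2) := by ring
    rw [e1, hg2 n hn', div_pow, div_pow]
    have e2 : L ^ 3 / e₀ n ^ 3 * ((univ.sigma (J n)).card : ℝ) ^ 2 ≤ L ^ 3 / Real.exp (γ * L) := by
      rw [div_mul_eq_mul_div, div_le_div_iff₀ (by positivity) (Real.exp_pos _)]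
      have := mul_le_mul_of_nonneg_left a3 (by positivity : 0 ≤ L ^ 3)
      linarith
    refine (mul_le_mul_of_nonneg_left e2 (sq_nonneg K)).trans ?_
    rw [mul_div_assoc', div_le_div_iff₀ (Real.exp_pos _) (by norm_num), hγ2]
    have e4 : E ^ 2 * (Real.exp (γ / 2 * L) * Real.exp (γ / 2 * L)) = Real.exp (γ / 2 * L) := by
      rw [← mul_assoc, hE2, one_mul]
    rw [e4]
    have e5 : K ^ 2 * L ^ 3 * 8 ^ 2 = 64 * K ^ 2 * L ^ 3 := by ring
    rw [e5]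
    exact g1
  -- the overlaps
  have hov : ∀ n ∈ Ico (2 ^ m) (2 ^ (m + 1)), ∀ n' ∈ Ico (2 ^ m) (2 ^ (m + 1)), n < n' →
      B * g n * (B * g n') * Gc p J T n n' ≤ E / 8 := by
    intro n hn' n' hn'' hlt
    obtain ⟨a1, a2, a3, a4, a5⟩ := hn n hn'
    obtain ⟨b1, b2, b3, b4, b5⟩ := hn n' hn''
    have hI := hn'
    have hI' := hn''
    rw [mem_Ico] at hI hI'
    have h5 : m < 2 ^ m := Nat.lt_two_pow_self
    have hp : 2 ^ (m + 1) = 2 * 2 ^ m := by rw [pow_succ]; ring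
    have c1 := (hM₁ n (by omega)).2.2 n' hlt (by omega)
    have hs : Real.sqrt (e₀ n) * Real.sqrt (e₀ n') * (g n * g n') = L := by
      rw [hg]
      simp only
      rw [mul_mul_mul_comm, ← Real.sqrt_mul (by linarith), ← Real.sqrt_mul (by linarith),
        mul_div_cancel₀ _ (by linarith : e₀ n ≠ 0), mul_div_cancel₀ _ (by linarith : e₀ n' ≠ 0),
        Real.mul_self_sqrt hL0.le]
    have hG0 := Gc_nonneg (J := J) (T := T) hA n n'
    have hgg : 0 ≤ g n * g n' := mul_nonneg (hg0 n) (hg0 n')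
    have c2 : Gc p J T n n' * Real.exp (γ * L) ≤ Real.sqrt (e₀ n) * Real.sqrt (e₀ n') :=
      (mul_le_mul_of_nonneg_left a5 hG0).trans c1
    have c3 := mul_le_mul_of_nonneg_right c2 hgg
    rw [hs] at c3
    have c4 : B * g n * (B * g n') * Gc p J T n n' * Real.exp (γ * L) ≤ B ^ 2 * L := by
      have := mul_le_mul_of_nonneg_left c3 (sq_nonneg B)
      linarith
    have c5 : B ^ 2 * L ≤ E / 8 * Real.exp (γ * L) := by
      have e6 : B ^ 2 ≤ K ^ 2 := pow_le_pow_left₀ hB0 (by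
        rw [hK]
        have : 0 ≤ 116 * D' ^ 2 * B ^ 3 := by positivity
        have : 0 ≤ 112 * D' * B := by positivity
        linarith) 2
      have e7 : 8 * (B ^ 2 * L) ≤ 64 * K ^ 2 * L ^ 3 := by
        have e8 : B ^ 2 * L ≤ K ^ 2 * L ^ 3 := mul_le_mul e6 hL3 hL0.le (sq_nonneg K)
        have e9 : 0 ≤ K ^ 2 * L ^ 3 := by positivity
        linarith
      have e10 : Real.exp (γ / 2 * L) ≤ E * Real.exp (γ * L) := by
        rw [hE, ← Real.exp_add]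
        refine Real.exp_le_exp.2 ?_
        have : 0 ≤ γ * L := by positivity
        linarith
      linarith
    exact le_of_mul_le_mul_right (c4.trans c5) (Real.exp_pos _)
  refine UB.mg hA (D := D') (h := fun n => B * g n) ?_
  constructor
  · intro n hn' i j hj
    exact hS.ne n i j hj
  · intro n _ i i' j j' hj hj' h
    exact hS.inj n i j i' j' hj hj' h
  · exact hD'
  · intro n hn' n' hn'' i j hj
    rw [mem_Ico] at hn' hn''
    have h5 : m < 2 ^ m := Nat.lt_two_pow_self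
    have hp : 2 ^ (m + 1) = 2 * 2 ^ m := by rw [pow_succ]; ring
    exact (hM₁ n (by omega)).2.1 n' (by omega) (by omega) i j hj
  · exact hL0
  · intro n hn' i
    obtain ⟨a1, a2, a3, a4, a5⟩ := hn n hn'
    have := a4 i
    linarith
  · intro n hn' i
    obtain ⟨a1, a2, a3, a4, a5⟩ := hn n hn'
    refine mul_le_mul_of_nonneg_left ?_ hB0
    rw [hg]
    exact Real.sqrt_le_sqrt (div_le_div_of_nonneg_left hL0.le (by linarith) (a4 i))
  · intro n hn'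
    have e1 := hgs n hn'
    have e2 : 112 * D' * B * g n ≤ K * g n := by
      refine mul_le_mul_of_nonneg_right ?_ (hg0 n)
      rw [hK]
      have : 0 ≤ 116 * D' ^ 2 * B ^ 3 := by positivity
      linarith
    show 112 * (D' * (B * g n)) ≤ 1
    have e3 : 112 * (D' * (B * g n)) = 112 * D' * B * g n := by ring
    rw [e3]
    linarith
  · intro n _
    exact mul_nonneg hB0 (hg0 n)
  · intro n hn'
    have e1 := hg3 n hn'
    have e2 : 116 * (D' ^ 2 * (B * g n) ^ 3) * ((univ.sigma (J n)).card : ℝ) =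
      116 * D' ^ 2 * B ^ 3 * (g n ^ 3 * ((univ.sigma (J n)).card : ℝ)) := by ring
    have e3 : 116 * D' ^ 2 * B ^ 3 * (g n ^ 3 * ((univ.sigma (J n)).card : ℝ)) ≤
        K * (g n ^ 3 * ((univ.sigma (J n)).card : ℝ)) := by
      refine mul_le_mul_of_nonneg_right ?_ (mul_nonneg (pow_nonneg (hg0 n) 3) (Nat.cast_nonneg _))
      rw [hK]
      have : 0 ≤ 112 * D' * B := by positivity
      linarith
    show 116 * (D' ^ 2 * (B * g n) ^ 3) * ((univ.sigma (J n)).card : ℝ) ≤ E / 8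
    rw [e2]
    linarith
  · exact hE0.le
  · exact hE12
  · intro n hn' n' hn'' hne
    rcases lt_or_gt_of_ne hne with h | h
    · exact hov n hn' n' hn'' h
    · have := hov n' hn'' n hn' h
      rw [Gc_symm n n']
      show B * g n * (B * g n') * Gc p J T n' n ≤ E / 8
      linarith

/-- **The law for families with small overlaps.** -/
theorem law_of (hA : IsModel μ p A) {J : ℕ → Fin r → Finset κ} {T : ℕ → Fin r → κ → Finset ι} {e : ℕ → Fin r → ℝ}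
    {e₀ : ℕ → ℝ} {D D' γ : ℝ} {k : ℕ} (hS : PSys p atTop J T e e₀ (fun n : ℕ => Real.log n) D)
    (hk : ∀ n i, ∀ j ∈ J n i, (T n i j).card ≤ k) (hγ : 0 < γ) (h1 : ∀ᶠ n : ℕ in atTop, (n : ℝ) ^ γ ≤ e₀ n)
    (h2 : ∀ᶠ n : ℕ in atTop, ((univ.sigma (J n)).card : ℝ) ^ 2 * (n : ℝ) ^ γ ≤ e₀ n ^ 3) (hD' : 1 ≤ D')
    (hdeg : ∀ᶠ n : ℕ in atTop, ∀ n' : ℕ, n ≤ 2 * n' → n' ≤ 2 * n → ∀ i, ∀ j ∈ J n i,
      (((univ.sigma (J n')).filter (fun x => ¬ Disjoint (T n' x.1 x.2) (T n i j))).card : ℝ) ≤ D')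
    (hcr : ∀ᶠ n : ℕ in atTop, ∀ n' : ℕ, n < n' → n' ≤ 2 * n →
      Gc p J T n n' * (n : ℝ) ^ γ ≤ Real.sqrt (e₀ n) * Real.sqrt (e₀ n')) :
    ∀ᵐ ω ∂μ, Law (fun n i => dev A J T e (fun n : ℕ => Real.log n) n i ω) :=
  lawU hA hS hk (bm_of hA hS hk hγ h1 h2 hD' hdeg hcr)

end Pool.Agent.Q106.UV
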