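import Pool.Agent.Q106.UV.Mgf

/-!
# Sums of orthogonal products with coefficients of different sizes and coincidences
-/

set_option autoImplicit false

namespace Pool.Agent.Q106.UV

open Finset MeasureTheory ProbabilityTheory Filter Pool.Agent.Q120.GM Pool.Agent.Q106.UR Pool.Agent.Q106.MD
  Pool.Agent.Q106.CH

variable {Ω : Type*} [MeasurableSpace Ω] {μ : Measure Ω} [IsProbabilityMeasure μ] {ι κ : Type*} [DecidableEq ι]
  [DecidableEq κ] {p : ι → ℝ} {A : Ω → Set ι}

/-- **Exponential moments of sums of products.** -/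
theorem chaosN (hA : IsModel μ p A) (J : Finset κ) (T : κ → Finset ι) (c : κ → ℝ) {D : ℝ} (hD : 1 ≤ D)
    (hh : ∀ j ∈ J, 56 * (D * |c j|) ≤ 1) (hne : ∀ j ∈ J, (T j).Nonempty)
    (hdeg : ∀ j ∈ J, ((nb T J j).card : ℝ) ≤ D) {W : ℝ}
    (hW : W = ∑ i ∈ J, ∑ j ∈ J, if T i = T j then c i * c j * vT p (T i) else 0) :
    Real.exp (W / 2 - 29 * (D ^ 2 * ∑ j ∈ J, |c j| ^ 3)) ≤ ∫ ω, Real.exp (∑ j ∈ J, c j * xi p A (T j) ω) ∂μ ∧
    ∫ ω, Real.exp (∑ j ∈ J, c j * xi p A (T j) ω) ∂μ ≤ Real.exp (W / 2 + 29 * (D ^ 2 * ∑ j ∈ J, |c j| ^ 3)) := by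
  obtain ⟨Y, hY⟩ : ∃ Y : κ → Ω → ℝ, Y = fun j ω => if j ∈ J then c j * xi p A (T j) ω else 0 := ⟨_, rfl⟩
  have hYm : ∀ j, Measurable[F A (T j : Set ι)] (Y j) := by
    intro j
    rw [hY]
    let _ : MeasurableSpace Ω := F A (T j : Set ι)
    simp only
    split_ifs
    · exact (xi_F (p := p) (A := A) (T j)).const_mul _
    · exact measurable_const
  have hYb : ∀ j ω, |Y j ω| ≤ |c j| := by
    intro j ω
    rw [hY]
    simp only
    split_ifs
    · rw [abs_mul]
      have e1 := xi_abs hA (T j) ω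
      have e3 := abs_nonneg (c j)
      nlinarith
    · rw [abs_zero]
      exact abs_nonneg _
  have hY0 : ∀ j, ∫ ω, Y j ω ∂μ = 0 := by
    intro j
    rw [hY]
    simp only
    split_ifs with hj
    · rw [integral_const_mul, xi_int hA (hne j hj), mul_zero]
    · simp
  have hm := mgfN hA hYm hYb hY0 hD J hh hdeg
  have e1 : ∀ ω, SS Y J ω = ∑ j ∈ J, c j * xi p A (T j) ω := by
    intro ω
    unfold SS
    refine sum_congr rfl (fun j hj => ?_)
    rw [hY]
    simp only [if_pos hj]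
  simp_rw [e1] at hm
  have e2 : VV μ Y J = W := by
    rw [hW]
    unfold VV
    refine sum_congr rfl (fun i hi => sum_congr rfl (fun j hj => ?_))
    have e5 : ∀ ω, Y i ω * Y j ω = (c i * c j) * (xi p A (T i) ω * xi p A (T j) ω) := by
      intro ω
      rw [hY]
      simp only [if_pos hi, if_pos hj]
      ring
    simp_rw [e5]
    rw [integral_const_mul, xi_orth hA]
    split_ifs
    · rfl
    · rw [mul_zero]
  rw [e2] at hm
  exact hm

end Pool.Agent.Q106.UV
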