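import Pool.Agent.Q106.UV.Bs
import Pool.Agent.Q106.CH.Gold4

/-!
# Systems of increasing functions: combinatorics and means
-/

set_option autoImplicit false

namespace Pool.Agent.Q106.UV

open Finset MeasureTheory ProbabilityTheory Filter Pool.Agent.Q120.GM Pool.Agent.Q106.UR Pool.Agent.Q106.MD
  Pool.Agent.Q106.CH
open scoped Topology

variable {σ : Type*}

/-- The pattern: all values at a place. -/
def ft (S : Finset σ) (f : σ → ℕ → ℕ) (m : ℕ) : Finset ℕ := S.image (fun s => f s m)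

theorem mem_ft {S : Finset σ} {f : σ → ℕ → ℕ} {m x : ℕ} : x ∈ ft S f m ↔ ∃ s ∈ S, f s m = x := by
  unfold ft
  rw [mem_image]

theorem ft_card (S : Finset σ) (f : σ → ℕ → ℕ) (m : ℕ) : (ft S f m).card ≤ S.card := card_image_le

theorem ft_ne {S : Finset σ} {f : σ → ℕ → ℕ} (hne : S.Nonempty) (hf : ∀ s ∈ S, StrictMono (f s)) {m m' : ℕ}
    (hlt : m < m') : ft S f m ≠ ft S f m' := by
  intro h
  have h1 : (ft S f m).Nonempty := hne.image _
  obtain ⟨b, hb⟩ : ∃ b, b = (ft S f m).min' h1 := ⟨_, rfl⟩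
  have h2 : b ∈ ft S f m' := by
    rw [← h, hb]
    exact min'_mem _ _
  obtain ⟨s, hs, e⟩ := mem_ft.1 h2
  have h3 : b ≤ f s m := by
    rw [hb]
    exact min'_le _ _ (mem_ft.2 ⟨s, hs, rfl⟩)
  have := hf s hs hlt
  omega

theorem ft_inj {S : Finset σ} {f : σ → ℕ → ℕ} (hne : S.Nonempty) (hf : ∀ s ∈ S, StrictMono (f s)) {m m' : ℕ}
    (h : ft S f m = ft S f m') : m = m' := by
  rcases lt_trichotomy m m' with h1 | h1 | h1
  · exact absurd h (ft_ne hne hf h1)
  · exact h1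
  · exact absurd h.symm (ft_ne hne hf h1)

theorem ft_deg {r : ℕ} (S : Fin r → Finset σ) (f : Fin r → σ → ℕ → ℕ)
    (hf : ∀ i, ∀ s ∈ S i, Function.Injective (f i s)) (J : Fin r → Finset ℕ) (X : Finset ℕ) {R : ℕ}
    (hR : ∑ i, (S i).card ≤ R) (hX : X.card ≤ R) :
    (((univ.sigma J).filter (fun x => ¬ Disjoint (ft (S x.1) (f x.1) x.2) X)).card : ℝ) ≤ (R : ℝ) ^ 2 + 1 := by
  classical
  have h1 : (univ.sigma J).filter (fun x => ¬ Disjoint (ft (S x.1) (f x.1) x.2) X) ⊆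
      univ.sigma (fun i => (X ×ˢ S i).biUnion (fun q : ℕ × σ => (J i).filter (fun m => f i q.2 m = q.1))) := by
    rintro ⟨i, m⟩ hx
    rw [mem_filter, Finset.not_disjoint_iff, mem_sigma] at hx
    obtain ⟨⟨_, hm⟩, b, h2, h3⟩ := hx
    simp only at h2 h3 hm
    rw [mem_sigma]
    refine ⟨mem_univ _, ?_⟩
    simp only
    obtain ⟨s, hs, e⟩ := mem_ft.1 h2
    rw [mem_biUnion]
    exact ⟨(b, s), mem_product.2 ⟨h3, hs⟩, mem_filter.2 ⟨hm, e⟩⟩
  have h2 : ((univ.sigma J).filter (fun x => ¬ Disjoint (ft (S x.1) (f x.1) x.2) X)).card ≤ R * R := by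
    refine (card_le_card h1).trans ?_
    rw [card_sigma]
    have h3 : ∀ i ∈ (univ : Finset (Fin r)), ((X ×ˢ S i).biUnion
        (fun q : ℕ × σ => (J i).filter (fun m => f i q.2 m = q.1))).card ≤ X.card * (S i).card := by
      intro i _
      refine card_biUnion_le.trans ?_
      rw [← card_product, card_eq_sum_ones]
      refine sum_le_sum (fun q hq => ?_)
      rw [card_le_one]
      intro m hm m' hm'
      rw [mem_filter] at hm hm'
      exact hf i q.2 (mem_product.1 hq).2 (hm.2.trans hm'.2.symm)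
    refine (sum_le_sum h3).trans ?_
    rw [← mul_sum]
    exact Nat.mul_le_mul hX hR
  have h3 : (((univ.sigma J).filter (fun x => ¬ Disjoint (ft (S x.1) (f x.1) x.2) X)).card : ℝ) ≤ ((R * R : ℕ) : ℝ) := by
    exact_mod_cast h2
  push_cast at h3
  nlinarith

/-- All values are coprime to `Q`. -/
def fcop (Q : ℕ) (S : Finset σ) (f : σ → ℕ → ℕ) (m : ℕ) : Prop := ∀ s ∈ S, (f s m).Coprime Q

instance (Q : ℕ) (S : Finset σ) (f : σ → ℕ → ℕ) : DecidablePred (fcop Q S f) := fun m => by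
  unfold fcop
  infer_instance

theorem fcop_periodic {Q : ℕ} {S : Finset σ} {f : σ → ℕ → ℕ} (h : ∀ s ∈ S, ∀ m, f s (m + Q) ≡ f s m [MOD Q]) :
    Function.Periodic (fcop Q S f) Q := by
  intro m
  unfold fcop
  apply propext
  refine forall_congr' (fun s => forall_congr' (fun hs => ?_))
  have h1 := h s hs m
  unfold Nat.Coprime
  rw [h1.gcd_eq]

/-- The number of solutions modulo `Q`. -/
def fcnt (Q : ℕ) (S : Finset σ) (f : σ → ℕ → ℕ) : ℕ := ((range Q).filter (fcop Q S f)).card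

/-- The singular series of level `Q`. -/
noncomputable def fser (Q : ℕ) (S : Finset σ) (f : σ → ℕ → ℕ) : ℝ :=
  (fcnt Q S f : ℝ) / Q * ((Q : ℝ) / Nat.totient Q) ^ S.card

/-- The density. -/
noncomputable def fw (S : Finset σ) (f : σ → ℕ → ℕ) (m : ℕ) : ℝ := ∏ s ∈ S, (Real.log (f s m : ℝ))⁻¹

/-- The predicted number. -/
noncomputable def fex (Q : ℕ) (S : Finset σ) (f : σ → ℕ → ℕ) (a b : ℕ) : ℝ := fser Q S f * ∑ m ∈ Ico a b, fw S f m

section

variable {S : Finset σ} {f : σ → ℕ → ℕ}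

theorem fge (hf : ∀ s ∈ S, StrictMono (f s)) {s : σ} (hs : s ∈ S) (m : ℕ) : m ≤ f s m := (hf s hs).le_apply

theorem fw_nonneg (hf : ∀ s ∈ S, StrictMono (f s)) {m : ℕ} (hm : 3 ≤ m) : 0 ≤ fw S f m :=
  prod_nonneg (fun s hs => (linv (by have := fge hf hs m; omega)).1)

theorem fw_le_one (hf : ∀ s ∈ S, StrictMono (f s)) {m : ℕ} (hm : 3 ≤ m) : fw S f m ≤ 1 :=
  prod_le_one (fun s hs => (linv (by have := fge hf hs m; omega)).1) (fun s hs => (linv (by have := fge hf hs m; omega)).2)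

theorem fw_anti (hf : ∀ s ∈ S, StrictMono (f s)) {m m' : ℕ} (hm : 3 ≤ m) (h : m ≤ m') : fw S f m' ≤ fw S f m :=
  prod_le_prod (fun s hs => (linv (by have := fge hf hs m'; omega)).1)
    (fun s hs => linv_anti (by have := fge hf hs m; omega) ((hf s hs).monotone h))

/-- The weighted number of solutions. -/
theorem fsum {Q : ℕ} (hQ : 1 ≤ Q) (hf : ∀ s ∈ S, StrictMono (f s))
    (hp : ∀ s ∈ S, ∀ m, f s (m + Q) ≡ f s m [MOD Q]) {a b : ℕ} (hab : a ≤ b) (ha : 3 ≤ a) :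
    |∑ m ∈ Ico a b, ((if fcop Q S f m then (1 : ℝ) else 0) - (fcnt Q S f : ℝ) / Q) * fw S f m| ≤ 2 * Q := by
  have h1 := abel_bv (f := fun m => fw S f m) (V := fun m => - fw S f m)
    (w := fun m => (if fcop Q S f m then (1 : ℝ) else 0) - (fcnt Q S f : ℝ) / Q) (a := a) (b := b) (B := Q)
    (fun m hm hmb => ?_) (fun b' hb' _ => per_real hQ (fcop_periodic hp) a b' hb') hab
  · refine h1.trans ?_
    have hQ0 : (0 : ℝ) < Q := by exact_mod_cast hQ
    have e1 : |fw S f b| ≤ 1 := by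
      rw [abs_of_nonneg (fw_nonneg hf (by omega))]
      exact fw_le_one hf (by omega)
    have e2 := fw_nonneg hf (m := b) (by omega)
    have e3 := fw_le_one hf (m := a) ha
    have e4 : (Q : ℝ) * |fw S f b| ≤ Q * 1 := mul_le_mul_of_nonneg_left e1 hQ0.le
    have e5 : (Q : ℝ) * (-fw S f b - -fw S f a) ≤ Q * 1 := mul_le_mul_of_nonneg_left (by linarith) hQ0.le
    linarith
  · have e1 := fw_anti hf (m := m) (m' := m + 1) (by omega) (by omega)
    rw [abs_of_nonpos (by linarith)]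
    linarith

/-- The probability of a pattern. -/
theorem prob_ft {Q : ℕ} (hf : ∀ s ∈ S, StrictMono (f s)) {m y : ℕ} (hinj : Set.InjOn (fun s => f s m) (S : Set σ))
    (hy : qq Q ≤ Real.log y) (hy1 : 1 ≤ Real.log y) (hm : y ≤ m) :
    pT (level Q) (ft S f m) = qq Q ^ S.card * ((if fcop Q S f m then 1 else 0) * fw S f m) := by
  have hy0 := pos_of_log hy1
  have h0 : pT (level Q) (ft S f m) = ∏ s ∈ S, level Q (f s m) := by
    unfold pT ft
    rw [prod_image hinj]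
  rw [h0]
  by_cases hg : fcop Q S f m
  · rw [if_pos hg, one_mul]
    unfold fw
    rw [← prod_const, ← prod_mul_distrib]
    refine prod_congr rfl (fun s hs => ?_)
    have h1 : Real.log y ≤ Real.log ((f s m : ℕ) : ℝ) := by
      refine Real.log_le_log (by linarith) ?_
      exact_mod_cast (show y ≤ f s m from hm.trans (fge hf hs m))
    unfold level
    rw [if_pos (hg s hs), min_eq_right]
    · rfl
    · rw [div_le_one (by linarith)]
      unfold qq at hy
      linarith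
  · rw [if_neg hg, zero_mul, mul_zero]
    unfold fcop at hg
    push Not at hg
    obtain ⟨s, hs, h1⟩ := hg
    refine prod_eq_zero hs ?_
    unfold level
    rw [if_neg h1]

/-- **The mean number.** -/
theorem fmean {Q : ℕ} (hQ : 1 ≤ Q) (hf : ∀ s ∈ S, StrictMono (f s))
    (hp : ∀ s ∈ S, ∀ m, f s (m + Q) ≡ f s m [MOD Q]) {a b y : ℕ} (hab : a ≤ b) (ha : 3 ≤ a)
    (hinj : ∀ m, a ≤ m → m < b → Set.InjOn (fun s => f s m) (S : Set σ))
    (hy : qq Q ≤ Real.log y) (hy1 : 1 ≤ Real.log y) :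
    |∑ m ∈ (Ico a b).filter (fun m => y ≤ m), pT (level Q) (ft S f m) - fex Q S f a b| ≤
      qq Q ^ S.card * (2 * Q + y) := by
  have hq0 := qq_pos hQ
  have hQ0 : (0 : ℝ) < Q := by exact_mod_cast hQ
  obtain ⟨q, hq⟩ : ∃ q, q = qq Q ^ S.card := ⟨_, rfl⟩
  have hqp : 0 < q := by rw [hq]; positivity
  rw [← hq]
  have h1 : ∑ m ∈ (Ico a b).filter (fun m => y ≤ m), pT (level Q) (ft S f m) =
      q * ∑ m ∈ (Ico a b).filter (fun m => y ≤ m), (if fcop Q S f m then (1 : ℝ) else 0) * fw S f m := by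
    rw [mul_sum]
    refine sum_congr rfl (fun m hm => ?_)
    rw [mem_filter, mem_Ico] at hm
    rw [prob_ft hf (hinj m hm.1.1 hm.1.2) hy hy1 hm.2, hq]
  have h2 : fex Q S f a b = q * ∑ m ∈ Ico a b, (fcnt Q S f : ℝ) / Q * fw S f m := by
    unfold fex fser
    have : (Q : ℝ) / Nat.totient Q = qq Q := rfl
    rw [this, ← hq, ← mul_sum]
    ring
  have h3 : ∑ m ∈ Ico a b, (if fcop Q S f m then (1 : ℝ) else 0) * fw S f m =
      ∑ m ∈ (Ico a b).filter (fun m => y ≤ m), (if fcop Q S f m then (1 : ℝ) else 0) * fw S f m +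
      ∑ m ∈ (Ico a b).filter (fun m => ¬ y ≤ m), (if fcop Q S f m then (1 : ℝ) else 0) * fw S f m :=
    (sum_filter_add_sum_filter_not _ _ _).symm
  have hterm : ∀ m ∈ Ico a b, 0 ≤ (if fcop Q S f m then (1 : ℝ) else 0) * fw S f m ∧
      (if fcop Q S f m then (1 : ℝ) else 0) * fw S f m ≤ 1 := by
    intro m hm
    rw [mem_Ico] at hm
    have e1 := fw_nonneg hf (m := m) (by omega)
    have e2 := fw_le_one hf (m := m) (by omega)
    split_ifs
    · rw [one_mul]
      exact ⟨e1, e2⟩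
    · rw [zero_mul]
      exact ⟨le_rfl, zero_le_one⟩
  have hcard : ((Ico a b).filter (fun m => ¬ y ≤ m)).card ≤ y := by
    have e1 : (Ico a b).filter (fun m => ¬ y ≤ m) ⊆ range y := by
      intro m hm
      rw [mem_filter] at hm
      rw [mem_range]
      omega
    refine (card_le_card e1).trans ?_
    rw [card_range]
  have h4 : 0 ≤ ∑ m ∈ (Ico a b).filter (fun m => ¬ y ≤ m), (if fcop Q S f m then (1 : ℝ) else 0) * fw S f m :=
    sum_nonneg (fun m hm => (hterm m (mem_filter.1 hm).1).1)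
  have h5 : ∑ m ∈ (Ico a b).filter (fun m => ¬ y ≤ m), (if fcop Q S f m then (1 : ℝ) else 0) * fw S f m ≤ y := by
    refine (sum_le_sum (fun m hm => (hterm m (mem_filter.1 hm).1).2)).trans ?_
    rw [sum_const, nsmul_eq_mul, mul_one]
    exact_mod_cast hcard
  have h6 := fsum hQ hf hp hab ha
  have h7 : ∑ m ∈ Ico a b, ((if fcop Q S f m then (1 : ℝ) else 0) - (fcnt Q S f : ℝ) / Q) * fw S f m =
      ∑ m ∈ Ico a b, (if fcop Q S f m then (1 : ℝ) else 0) * fw S f m -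
      ∑ m ∈ Ico a b, (fcnt Q S f : ℝ) / Q * fw S f m := by
    rw [← sum_sub_distrib]
    exact sum_congr rfl (fun m _ => by ring)
  rw [h7, h3, abs_le] at h6
  rw [h1, h2, ← mul_sub, abs_mul, abs_of_pos hqp]
  refine mul_le_mul_of_nonneg_left ?_ hqp.le
  rw [abs_le]
  constructor
  · linarith [h6.1]
  · linarith [h6.2]

theorem fser_ge {Q : ℕ} (hQ : 1 ≤ Q) (hs : 0 < fser Q S f) : 1 / (Q : ℝ) ≤ fser Q S f := by
  have hQ0 : (0 : ℝ) < Q := by exact_mod_cast hQ
  have hc : 1 ≤ fcnt Q S f := by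
    by_contra hcon
    have h0 : fcnt Q S f = 0 := by omega
    unfold fser at hs
    rw [h0] at hs
    simp at hs
  have h1 : (1 : ℝ) ≤ fcnt Q S f := by exact_mod_cast hc
  have h2 : 1 ≤ qq Q ^ S.card := one_le_pow₀ (one_le_qq hQ)
  have h3 : fser Q S f = (fcnt Q S f : ℝ) / Q * qq Q ^ S.card := rfl
  rw [h3]
  have h4 : 1 / (Q : ℝ) ≤ (fcnt Q S f : ℝ) / Q := div_le_div_of_nonneg_right h1 hQ0.le
  have h5 : (fcnt Q S f : ℝ) / Q * 1 ≤ (fcnt Q S f : ℝ) / Q * qq Q ^ S.card :=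
    mul_le_mul_of_nonneg_left h2 (by positivity)
  linarith

/-- The predicted number is large. -/
theorem fex_ge {Q : ℕ} (hQ : 1 ≤ Q) (hf : ∀ s ∈ S, StrictMono (f s)) {N a b R : ℕ} (hs : 0 < fser Q S f)
    (hN : ∀ s ∈ S, ∀ m, m < b → f s m ≤ N) (hab : a ≤ b) (ha : 3 ≤ a) (hN3 : 3 ≤ N) (hR : S.card ≤ R) :
    1 / (Q : ℝ) * (((b : ℝ) - a) * (Real.log ((2 * N : ℕ) : ℝ))⁻¹ ^ R) ≤ fex Q S f a b := by
  have h1 := fser_ge hQ hs
  have hL := linv (m := 2 * N) (by omega)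
  have h2 : ((b : ℝ) - a) * (Real.log ((2 * N : ℕ) : ℝ))⁻¹ ^ R ≤ ∑ m ∈ Ico a b, fw S f m := by
    have h3 : ∀ m ∈ Ico a b, (Real.log ((2 * N : ℕ) : ℝ))⁻¹ ^ R ≤ fw S f m := by
      intro m hm
      rw [mem_Ico] at hm
      refine (pow_le_pow_of_le_one hL.1 hL.2 hR).trans ?_
      unfold fw
      rw [← prod_const]
      refine prod_le_prod (fun _ _ => hL.1) (fun s hs' => linv_anti ?_ ?_)
      · have := fge hf hs' m
        omega
      · have := hN s hs' m hm.2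
        omega
    have h4 := sum_le_sum h3
    rw [sum_const, Nat.card_Ico, nsmul_eq_mul, Nat.cast_sub hab] at h4
    exact h4
  unfold fex
  have h5 : 0 ≤ ((b : ℝ) - a) * (Real.log ((2 * N : ℕ) : ℝ))⁻¹ ^ R := by
    have : (a : ℝ) ≤ b := by exact_mod_cast hab
    exact mul_nonneg (by linarith) (pow_nonneg hL.1 _)
  exact mul_le_mul h1 h2 h5 hs.le

end

end Pool.Agent.Q106.UV
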