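import Pool.Agent.Q106.UV.Fun1

/-!
# Systems of increasing functions: the law
-/

set_option autoImplicit false

namespace Pool.Agent.Q106.UV

open Finset MeasureTheory ProbabilityTheory Filter Pool.Agent.Q120.GM Pool.Agent.Q106.UR Pool.Agent.Q106.MD
  Pool.Agent.Q106.CH
open scoped Topology

variable {σ : Type*}

open Classical in
/-- The number of the patterns of the family `n` that occur in the family `n'`. -/
noncomputable def ovc {r : ℕ} (S : Fin r → Finset σ) (f : ℕ → Fin r → σ → ℕ → ℕ) (a b : ℕ → Fin r → ℕ) (n n' : ℕ) : ℕ :=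
  (((univ : Finset (Fin r)).sigma (fun i => Ico (a n i) (b n i))).filter (fun x : (_ : Fin r) × ℕ =>
    ∃ i' m', a n' i' ≤ m' ∧ m' < b n' i' ∧ ft (S x.1) (f n x.1) x.2 = ft (S i') (f n' i') m')).card

/-- The data: systems of increasing functions and windows. -/
structure FD (Q : ℕ) {r : ℕ} (S : Fin r → Finset σ) (f : ℕ → Fin r → σ → ℕ → ℕ) (N : ℕ → ℕ) (a b : ℕ → Fin r → ℕ)
    (M : ℕ → ℝ) (δ : ℝ) : Prop where
  ne : ∀ i, (S i).Nonempty
  mono : ∀ n i, ∀ s ∈ S i, StrictMono (f n i s)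
  per : ∀ n i, ∀ s ∈ S i, ∀ m, f n i s (m + Q) ≡ f n i s m [MOD Q]
  dist : ∀ n i m, a n i ≤ m → m < b n i → Set.InjOn (fun s => f n i s m) (S i : Set σ)
  grow : ∀ n, n ≤ N n
  bd : ∀ n i, ∀ s ∈ S i, ∀ m, m < b n i → f n i s m ≤ N n
  sing : ∀ n i, 0 < fser Q (S i) (f n i)
  win : ∀ n i, 3 ≤ a n i ∧ a n i ≤ b n i
  size : ∀ n, (N n : ℝ) ^ δ ≤ M n
  low : ∀ n i, M n ≤ (b n i : ℝ) - a n i
  high : ∀ n i, (b n i : ℝ) - a n i ≤ M n ^ (3 / 2 - δ)
  uniq : ∀ n i i' m m', a n i ≤ m → m < b n i → a n i' ≤ m' → m' < b n i' →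
    ft (S i) (f n i) m = ft (S i') (f n i') m' → i = i'
  ov : ∀ n n', n < n' → n' ≤ 2 * n → (ovc S f a b n n' : ℝ) ^ 2 * ((N n : ℝ) ^ δ * (N n' : ℝ) ^ δ) ≤ M n * M n'

/-- The places. -/
noncomputable def fJs {r : ℕ} (N : ℕ → ℕ) (a b : ℕ → Fin r → ℕ) (δ : ℝ) (n : ℕ) (i : Fin r) : Finset ℕ :=
  (Ico (a n i) (b n i)).filter (fun m => gy δ N n ≤ m)

/-- The patterns. -/
def fTs {r : ℕ} (S : Fin r → Finset σ) (f : ℕ → Fin r → σ → ℕ → ℕ) (n : ℕ) (i : Fin r) (m : ℕ) : Finset ℕ :=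
  ft (S i) (f n i) m

/-- The predicted numbers. -/
noncomputable def fes {r : ℕ} (Q : ℕ) (S : Fin r → Finset σ) (f : ℕ → Fin r → σ → ℕ → ℕ) (a b : ℕ → Fin r → ℕ) (n : ℕ)
    (i : Fin r) : ℝ := fex Q (S i) (f n i) (a n i) (b n i)

/-- The number of the functions. -/
def fR {r : ℕ} (S : Fin r → Finset σ) : ℕ := ∑ i, (S i).card

theorem fR_le {r : ℕ} (S : Fin r → Finset σ) (i : Fin r) : (S i).card ≤ fR S :=
  single_le_sum (f := fun i => (S i).card) (fun _ _ => Nat.zero_le _) (mem_univ i)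

section

variable {Q r : ℕ} {S : Fin r → Finset σ} {f : ℕ → Fin r → σ → ℕ → ℕ} {N : ℕ → ℕ} {a b : ℕ → Fin r → ℕ} {M : ℕ → ℝ}
  {δ : ℝ}

theorem mem_fJs {n : ℕ} {i : Fin r} {m : ℕ} : m ∈ fJs N a b δ n i ↔ (a n i ≤ m ∧ m < b n i) ∧ gy δ N n ≤ m := by
  unfold fJs
  rw [mem_filter, mem_Ico]

/-- The growth facts hold for all data of this kind. -/
theorem FD.gd (hG : FD Q S f N a b M δ) :
    GD Q (r := 0) (fun _ => ∅) (fun _ => ∅) N (fun _ _ => 0) (fun _ _ => 0) M δ where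
  zero := fun i => i.elim0
  uniq := fun _ _ i => i.elim0
  grow := hG.grow
  sing := fun _ i => i.elim0
  win := fun _ i => i.elim0
  size := hG.size
  low := fun _ i => i.elim0
  high := fun _ i => i.elim0

theorem fs_inj (hG : FD Q S f N a b M δ) (n : ℕ) (i : Fin r) (j : ℕ) (i' : Fin r) (j' : ℕ)
    (hj : j ∈ fJs N a b δ n i) (hj' : j' ∈ fJs N a b δ n i') (h : fTs S f n i j = fTs S f n i' j') : i = i' ∧ j = j' := by
  rw [mem_fJs] at hj hj'
  have h1 := hG.uniq n i i' j j' hj.1.1 hj.1.2 hj'.1.1 hj'.1.2 h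
  subst h1
  exact ⟨rfl, ft_inj (hG.ne i) (hG.mono n i) h⟩

theorem fs_deg (hG : FD Q S f N a b M δ) (n n' : ℕ) (i : Fin r) (j : ℕ) :
    (((univ.sigma (fJs N a b δ n')).filter (fun x => ¬ Disjoint (fTs S f n' x.1 x.2) (fTs S f n i j))).card : ℝ) ≤
      (fR S : ℝ) ^ 2 + 1 := by
  unfold fTs
  exact ft_deg S (f n') (fun i s hs => (hG.mono n' i s hs).injective) (fJs N a b δ n') _ le_rfl
    ((ft_card _ _ _).trans (fR_le S i))

theorem fs_card (hG : FD Q S f N a b M δ) (n : ℕ) :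
    ((univ.sigma (fJs N a b δ n)).card : ℝ) ≤ ∑ i, ((b n i : ℝ) - a n i) + 1 := by
  rw [card_sigma]
  push_cast
  have h1 : ∀ i ∈ (univ : Finset (Fin r)), ((fJs N a b δ n i).card : ℝ) ≤ (b n i : ℝ) - a n i := by
    intro i _
    have h2 : (fJs N a b δ n i).card ≤ b n i - a n i := by
      unfold fJs
      refine (card_filter_le _ _).trans ?_
      rw [Nat.card_Ico]
    have h3 : ((fJs N a b δ n i).card : ℝ) ≤ ((b n i - a n i : ℕ) : ℝ) := by exact_mod_cast h2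
    rwa [Nat.cast_sub (hG.win n i).2] at h3
  linarith [sum_le_sum h1]

theorem fs_w (hG : FD Q S f N a b M δ) (n : ℕ) : 0 ≤ ∑ i, ((b n i : ℝ) - a n i) + 1 := by
  have : 0 ≤ ∑ i, ((b n i : ℝ) - a n i) := by
    refine sum_nonneg (fun i _ => ?_)
    have : (a n i : ℝ) ≤ b n i := by exact_mod_cast (hG.win n i).2
    linarith
  linarith

theorem fs_w_le (hG : FD Q S f N a b M δ) (hδ1 : δ ≤ 1 / 2) (n : ℕ) (hM : 1 ≤ M n) :
    (∑ i, ((b n i : ℝ) - a n i) + 1) ^ 2 ≤ ((r : ℝ) + 1) ^ 2 * M n ^ (3 - 2 * δ) := by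
  have h1 : ∑ i, ((b n i : ℝ) - a n i) ≤ r * M n ^ (3 / 2 - δ) := by
    refine (sum_le_sum (fun i _ => hG.high n i)).trans (le_of_eq ?_)
    simp
  have h2 : 1 ≤ M n ^ (3 / 2 - δ) := Real.one_le_rpow hM (by linarith)
  have h3 : ∑ i, ((b n i : ℝ) - a n i) + 1 ≤ ((r : ℝ) + 1) * M n ^ (3 / 2 - δ) := by linarith
  have h4 := pow_le_pow_left₀ (fs_w hG n) h3 2
  refine h4.trans (le_of_eq ?_)
  rw [mul_pow]
  congr 1
  rw [← Real.rpow_natCast, ← Real.rpow_mul (by linarith)]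
  congr 1
  push_cast
  ring

/-- The system. -/
theorem fs_psys (hG : FD Q S f N a b M δ) (hQ : 1 ≤ Q) (hδ : 0 < δ) (hδ1 : δ ≤ 1 / 2) :
    PSys (level Q) atTop (fJs N a b δ) (fTs S f) (fes Q S f a b) (ge0 Q (fR S) N M)
      (fun n : ℕ => Real.log n) ((fR S : ℝ) ^ 2 + 1) := by
  have hQ0 : (0 : ℝ) < Q := by exact_mod_cast hQ
  have hq0 := qq_pos hQ
  have hlim : Tendsto (fun n : ℕ => Real.log n) atTop atTop := UR.log_tendsto
  have hle : ∀ᶠ n in atTop, ∀ i, ge0 Q (fR S) N M n ≤ fes Q S f a b n i := by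
    filter_upwards [gfacts hG.gd hQ hδ hδ1 (fR S) 0] with n h1 i
    obtain ⟨_, _, _, h4, h5, h6⟩ := h1
    obtain ⟨w1, w2⟩ := hG.win n i
    have e1 := fex_ge hQ (hG.mono n i) (hG.sing n i) (hG.bd n i) w2 w1 h5 (fR_le S i)
    refine le_trans ?_ e1
    unfold ge0
    refine mul_le_mul_of_nonneg_left ?_ (by positivity)
    refine mul_le_mul_of_nonneg_right (hG.low n i) ?_
    exact pow_nonneg (linv (by omega)).1 _
  have hbig : ∀ R : ℝ, ∀ᶠ n : ℕ in atTop, R * Real.log n ≤ ge0 Q (fR S) N M n := by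
    intro R
    filter_upwards [gfacts hG.gd hQ hδ hδ1 (fR S) 0, ev_pow_log (|R|) 1 (s := 0) (t := δ ^ 2) (by positivity),
      eventually_ge_atTop 1] with n h1 h2 h3
    refine le_trans ?_ h1.1
    refine le_trans ?_ h2
    have hn : (0 : ℝ) < n := by exact_mod_cast h3
    rw [pow_one, Real.rpow_zero, mul_one]
    have e1 : Real.log n ≤ Real.log ((2 * n : ℕ) : ℝ) := by
      refine Real.log_le_log hn ?_
      push_cast
      linarith
    have e2 : 0 ≤ Real.log (n : ℝ) := Real.log_natCast_nonneg n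
    calc R * Real.log n ≤ |R| * Real.log n := mul_le_mul_of_nonneg_right (le_abs_self R) e2
      _ ≤ _ := mul_le_mul_of_nonneg_left e1 (abs_nonneg R)
  refine ⟨hlim, ?_, ?_, ?_, ?_, ?_, hle, hbig, ?_, ?_⟩
  · intro n i j i' j' hj hj' h
    exact fs_inj hG n i j i' j' hj hj' h
  · intro n i j _
    unfold fTs ft
    exact (hG.ne i).image _
  · have := sq_nonneg (fR S : ℝ)
    linarith
  · intro n i j _
    exact fs_deg hG n n i j
  · intro s hs
    filter_upwards [(gy_lim hG.gd hδ).eventually_ge_atTop (qq Q / s), (gy_lim hG.gd hδ).eventually_ge_atTop 1]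
      with n h1 h2 i m hm b' hb'
    have h6 := pos_of_log h2
    rw [mem_fJs] at hm
    have h3 : gy δ N n ≤ b' := by
      unfold fTs at hb'
      obtain ⟨t, ht, e⟩ := mem_ft.1 hb'
      have := fge (hG.mono n i) ht m
      omega
    refine (level_le (x := (gy δ N n : ℝ)) (by linarith) (by linarith) (by exact_mod_cast h3)).trans ?_
    rw [div_le_iff₀ hs] at h1
    rw [div_le_iff₀ (by linarith)]
    linarith
  · intro η hη
    obtain ⟨K, hK⟩ : ∃ K, K = qq Q ^ fR S * (2 * Q + 1) / η := ⟨_, rfl⟩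
    filter_upwards [hle, gfacts hG.gd hQ hδ hδ1 (fR S) K, (gy_lim hG.gd hδ).eventually_ge_atTop (qq Q),
      (gy_lim hG.gd hδ).eventually_ge_atTop 1] with n h1 h2 h3 h4 i
    obtain ⟨w1, w2⟩ := hG.win n i
    have e1 := fmean hQ (hG.mono n i) (hG.per n i) (y := gy δ N n) w2 w1 (hG.dist n i) h3 h4
    refine e1.trans ?_
    have e2 : qq Q ^ (S i).card ≤ qq Q ^ fR S := pow_le_pow_right₀ (one_le_qq hQ) (fR_le S i)
    have hy0 : (0 : ℝ) ≤ gy δ N n := Nat.cast_nonneg _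
    have e3 : 2 * (Q : ℝ) + gy δ N n ≤ (2 * Q + 1) * (gy δ N n + 1) := by nlinarith
    have e4 : qq Q ^ (S i).card * (2 * Q + gy δ N n) ≤
        qq Q ^ fR S * ((2 * Q + 1) * (gy δ N n + 1)) := mul_le_mul e2 e3 (by positivity) (by positivity)
    have e5 : qq Q ^ fR S * ((2 * Q + 1) * (gy δ N n + 1)) = η * (K * (gy δ N n + 1)) := by
      rw [hK]
      field_simp
    have e6 : K * ((gy δ N n : ℝ) + 1) ≤ Real.sqrt (fes Q S f a b n i) :=
      Real.le_sqrt_of_sq_le (h2.2.2.1.trans (h1 i))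
    exact e4.trans (e5.le.trans (mul_le_mul_of_nonneg_left e6 hη.le))
  · intro η hη
    filter_upwards [gfacts hG.gd hQ hδ hδ1 (fR S) (((r : ℝ) + 1) ^ 2),
      ev_pow_log (1 / η) 1 (s := 0) (t := δ ^ 2) (by positivity), eventually_ge_atTop 1] with n h1 h2 h3
    obtain ⟨f1, f2, f3, f4, f5, f6⟩ := h1
    have hn : (0 : ℝ) < n := by exact_mod_cast h3
    rw [pow_one, Real.rpow_zero, mul_one] at h2
    have e1 : Real.log n ≤ Real.log ((2 * n : ℕ) : ℝ) := by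
      refine Real.log_le_log hn ?_
      push_cast
      linarith
    have e2 : Real.log n ≤ η * (n : ℝ) ^ (δ ^ 2) := by
      have e3 := mul_le_mul_of_nonneg_left h2 hη.le
      have e4 : η * (1 / η * Real.log ((2 * n : ℕ) : ℝ)) = Real.log ((2 * n : ℕ) : ℝ) := by field_simp
      linarith
    have e3 : (((univ.sigma (fJs N a b δ n)).card : ℕ) : ℝ) ^ 2 ≤ ((r : ℝ) + 1) ^ 2 * M n ^ (3 - 2 * δ) :=
      (pow_le_pow_left₀ (Nat.cast_nonneg _) (fs_card hG n) 2).trans (fs_w_le hG hδ1 n f4)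
    have e4 : Real.log n * (((univ.sigma (fJs N a b δ n)).card : ℕ) : ℝ) ^ 2 ≤
        (η * (n : ℝ) ^ (δ ^ 2)) * (((r : ℝ) + 1) ^ 2 * M n ^ (3 - 2 * δ)) :=
      mul_le_mul e2 e3 (by positivity) (by positivity)
    refine e4.trans ?_
    have e5 : (η * (n : ℝ) ^ (δ ^ 2)) * (((r : ℝ) + 1) ^ 2 * M n ^ (3 - 2 * δ)) =
        η * (((r : ℝ) + 1) ^ 2 * M n ^ (3 - 2 * δ) * (n : ℝ) ^ (δ ^ 2)) := by ring
    rw [e5]
    exact mul_le_mul_of_nonneg_left f2 hη.le

variable {Ω : Type*} [MeasurableSpace Ω] {μ : Measure Ω} [IsProbabilityMeasure μ] {A : Ω → Set ℕ}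

/-- The common part. -/
theorem fs_gc (hA : IsModel μ (level Q) A) (hG : FD Q S f N a b M δ) (n n' : ℕ) :
    Gc (level Q) (fJs N a b δ) (fTs S f) n n' ≤ ovc S f a b n n' := by
  classical
  unfold Gc ovc
  have h1 : ∀ x ∈ univ.sigma (fJs N a b δ n), ∑ y ∈ univ.sigma (fJs N a b δ n'),
      (if fTs S f n x.1 x.2 = fTs S f n' y.1 y.2 then vT (level Q) (fTs S f n x.1 x.2) else 0) ≤
      if (∃ i' m', a n' i' ≤ m' ∧ m' < b n' i' ∧ ft (S x.1) (f n x.1) x.2 = ft (S i') (f n' i') m') then (1 : ℝ) else 0 := by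
    intro x _
    by_cases h : ∃ y ∈ univ.sigma (fJs N a b δ n'), fTs S f n x.1 x.2 = fTs S f n' y.1 y.2
    · obtain ⟨y, hy, e⟩ := h
      have hy' := (mem_sigma.1 hy).2
      rw [mem_fJs] at hy'
      rw [if_pos ⟨y.1, y.2, hy'.1.1, hy'.1.2, e⟩, sum_eq_single y]
      · rw [if_pos e]
        exact (vT_le hA _).trans (pT_le_one hA _)
      · intro z hz hzy
        rw [if_neg]
        intro h2
        obtain ⟨h3, h4⟩ := fs_inj hG n' z.1 z.2 y.1 y.2 (mem_sigma.1 hz).2 (mem_sigma.1 hy).2 (h2.symm.trans e)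
        apply hzy
        obtain ⟨z1, z2⟩ := z
        obtain ⟨y1, y2⟩ := y
        simp only at h3 h4
        subst h3
        subst h4
        rfl
      · intro h2
        exact absurd hy h2
    · push Not at h
      rw [sum_eq_zero (fun y hy => if_neg (h y hy))]
      split_ifs
      · exact zero_le_one
      · exact le_rfl
  refine (sum_le_sum h1).trans ?_
  rw [← sum_filter, sum_const, nsmul_eq_mul, mul_one]
  refine Nat.cast_le.2 (card_le_card ?_)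
  intro x hx
  rw [mem_filter, mem_sigma, mem_fJs] at hx
  rw [mem_filter, mem_sigma, mem_Ico]
  exact ⟨⟨mem_univ _, hx.1.2.1⟩, hx.2⟩

/-- **The law of the numbers of values, with truncated windows.** -/
theorem fs_law (hA : IsModel μ (level Q) A) (hG : FD Q S f N a b M δ) (hQ : 1 ≤ Q) (hδ : 0 < δ) (hδ1 : δ ≤ 1 / 2) :
    ∀ᵐ ω ∂μ, Law (fun n i => dev A (fJs N a b δ) (fTs S f) (fes Q S f a b) (fun n : ℕ => Real.log n) n i ω) := by
  have hS := fs_psys hG hQ hδ hδ1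
  have hQ0 : (0 : ℝ) < Q := by exact_mod_cast hQ
  have hk : ∀ n i, ∀ j ∈ fJs N a b δ n i, (fTs S f n i j).card ≤ fR S := by
    intro n i j _
    exact (ft_card _ _ _).trans (fR_le S i)
  refine law_of hA hS hk (D' := (fR S : ℝ) ^ 2 + 1) (γ := δ ^ 2) (by positivity) ?_ ?_ ?_ ?_ ?_
  · filter_upwards [gfacts hG.gd hQ hδ hδ1 (fR S) 0] with n h1
    exact h1.1
  · filter_upwards [gfacts hG.gd hQ hδ hδ1 (fR S) (((r : ℝ) + 1) ^ 2)] with n h1
    obtain ⟨f1, f2, f3, f4, f5, f6⟩ := h1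
    refine le_trans ?_ f2
    refine mul_le_mul_of_nonneg_right ?_ (by positivity)
    exact (pow_le_pow_left₀ (Nat.cast_nonneg _) (fs_card hG n) 2).trans (fs_w_le hG hδ1 n f4)
  · have := sq_nonneg (fR S : ℝ)
    linarith
  · exact Eventually.of_forall (fun n n' _ _ i j _ => fs_deg hG n n' i j)
  · have g1 := hG.gd.lim.eventually (ev_pow_log (Q : ℝ) (fR S) (s := δ ^ 2) (t := δ) (by nlinarith))
    obtain ⟨n₀, hn₀⟩ := eventually_atTop.1 (g1.and (gfacts hG.gd hQ hδ hδ1 (fR S) 0))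
    filter_upwards [eventually_ge_atTop n₀] with n hn n' hlt hle
    have key : ∀ x : ℕ, n₀ ≤ x → 0 < ge0 Q (fR S) N M x ∧ (x : ℝ) ^ (δ ^ 2) * M x ≤ ge0 Q (fR S) N M x * (N x : ℝ) ^ δ := by
      intro x hx
      obtain ⟨h1, h2, h3, h4, h5, h6, h7⟩ := hn₀ x hx
      have hN0 : (0 : ℝ) < N x := by exact_mod_cast (show 0 < N x by omega)
      obtain ⟨L, hL⟩ : ∃ L, L = Real.log ((2 * N x : ℕ) : ℝ) := ⟨_, rfl⟩
      rw [← hL] at h1
      have hL0 : 0 < L := by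
        rw [hL]
        have := log3 (m := 2 * N x) (by omega)
        linarith
      have he : ge0 Q (fR S) N M x = M x / (Q * L ^ fR S) := by
        unfold ge0
        rw [← hL, inv_pow]
        field_simp
      have hQL : 0 < Q * L ^ fR S := by positivity
      have hM0 : 0 < M x := by linarith
      refine ⟨by rw [he]; positivity, ?_⟩
      have hxx : (x : ℝ) ^ (δ ^ 2) ≤ (N x : ℝ) ^ (δ ^ 2) := by
        refine Real.rpow_le_rpow (Nat.cast_nonneg x) ?_ (by positivity)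
        exact_mod_cast hG.grow x
      have e1 : (x : ℝ) ^ (δ ^ 2) * (Q * L ^ fR S) ≤ (N x : ℝ) ^ δ := by
        have e2 : (x : ℝ) ^ (δ ^ 2) * (Q * L ^ fR S) ≤ (N x : ℝ) ^ (δ ^ 2) * (Q * L ^ fR S) :=
          mul_le_mul_of_nonneg_right hxx hQL.le
        linarith
      rw [he, div_mul_eq_mul_div, le_div_iff₀ hQL]
      have e2 := mul_le_mul_of_nonneg_left e1 hM0.le
      linarith
    obtain ⟨p1, p2⟩ := key n hn
    obtain ⟨q1, q2⟩ := key n' (by omega)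
    rw [← Real.sqrt_mul p1.le]
    refine Real.le_sqrt_of_sq_le ?_
    obtain ⟨O, hO⟩ : ∃ O : ℝ, O = ovc S f a b n n' := ⟨_, rfl⟩
    have hov := hG.ov n n' hlt hle
    have hgc := fs_gc hA hG n n'
    rw [← hO] at hov hgc
    have hgc0 := Gc_nonneg (J := fJs N a b δ) (T := fTs S f) hA n n'
    have hN0 : (0 : ℝ) < N n := by
      have := (hn₀ n hn).2.2.2.2.2.1
      exact_mod_cast (show 0 < N n by omega)
    have hN0' : (0 : ℝ) < N n' := by
      have := (hn₀ n' (by omega)).2.2.2.2.2.1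
      exact_mod_cast (show 0 < N n' by omega)
    have hM0 : 0 < M n := by
      have := (hn₀ n hn).2.2.2.2.1
      linarith
    have hM0' : 0 < M n' := by
      have := (hn₀ n' (by omega)).2.2.2.2.1
      linarith
    have hnn : (n : ℝ) ^ (δ ^ 2) ≤ (n' : ℝ) ^ (δ ^ 2) :=
      Real.rpow_le_rpow (Nat.cast_nonneg n) (by exact_mod_cast hlt.le) (by positivity)
    have hx0 : 0 ≤ (n : ℝ) ^ (δ ^ 2) := by positivity
    -- multiply everything
    have s1 : (Gc (level Q) (fJs N a b δ) (fTs S f) n n' * (n : ℝ) ^ (δ ^ 2)) ^ 2 ≤ O ^ 2 * ((n : ℝ) ^ (δ ^ 2) * (n' : ℝ) ^ (δ ^ 2)) := by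
      rw [mul_pow]
      refine mul_le_mul (pow_le_pow_left₀ hgc0 hgc 2) ?_ (by positivity) (sq_nonneg _)
      rw [sq]
      exact mul_le_mul_of_nonneg_left hnn hx0
    refine s1.trans ?_
    have hP : 0 < (N n : ℝ) ^ δ * (N n' : ℝ) ^ δ * (M n * M n') := by positivity
    refine le_of_mul_le_mul_right ?_ hP
    have s2 : (n : ℝ) ^ (δ ^ 2) * M n * ((n' : ℝ) ^ (δ ^ 2) * M n') ≤
        ge0 Q (fR S) N M n * (N n : ℝ) ^ δ * (ge0 Q (fR S) N M n' * (N n' : ℝ) ^ δ) :=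
      mul_le_mul p2 q2 (by positivity) (by positivity)
    have s3 := mul_le_mul hov s2 (by positivity) (by positivity)
    calc O ^ 2 * ((n : ℝ) ^ (δ ^ 2) * (n' : ℝ) ^ (δ ^ 2)) * ((N n : ℝ) ^ δ * (N n' : ℝ) ^ δ * (M n * M n'))
        = O ^ 2 * ((N n : ℝ) ^ δ * (N n' : ℝ) ^ δ) * ((n : ℝ) ^ (δ ^ 2) * M n * ((n' : ℝ) ^ (δ ^ 2) * M n')) := by ring
      _ ≤ M n * M n' * (ge0 Q (fR S) N M n * (N n : ℝ) ^ δ * (ge0 Q (fR S) N M n' * (N n' : ℝ) ^ δ)) := s3
      _ = ge0 Q (fR S) N M n * ge0 Q (fR S) N M n' * ((N n : ℝ) ^ δ * (N n' : ℝ) ^ δ * (M n * M n')) := by ring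

/-- The number of the places where all values are in the set. -/
noncomputable def fN (A : Set ℕ) (S : Finset σ) (f : σ → ℕ → ℕ) (a b : ℕ) : ℝ :=
  ({m : ℕ | a ≤ m ∧ m < b ∧ ∀ s ∈ S, f s m ∈ A}.ncard : ℝ)

omit [MeasurableSpace Ω] [IsProbabilityMeasure μ] in
theorem fN_close (A : Ω → Set ℕ) (S : Finset σ) (f : σ → ℕ → ℕ) {a b y : ℕ} (ω : Ω) :
    |fN (A ω) S f a b - nm A ((Ico a b).filter (fun m => y ≤ m)) (fun m => ft S f m) ω| ≤ y := by
  classical
  have h1 : {m : ℕ | a ≤ m ∧ m < b ∧ ∀ s ∈ S, f s m ∈ A ω} =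
      (((Ico a b).filter (fun m => ω ∈ all A (ft S f m))) : Finset ℕ) := by
    ext m
    simp only [Set.mem_setOf_eq, Finset.coe_filter, mem_Ico]
    constructor
    · rintro ⟨h1, h2, h3⟩
      refine ⟨⟨h1, h2⟩, fun x hx => ?_⟩
      obtain ⟨s, hs, rfl⟩ := mem_ft.1 hx
      exact h3 s hs
    · rintro ⟨⟨h1, h2⟩, h3⟩
      exact ⟨h1, h2, fun s hs => h3 _ (mem_ft.2 ⟨s, hs, rfl⟩)⟩
  have h2 : fN (A ω) S f a b = ∑ m ∈ Ico a b, ind A (ft S f m) ω := by
    unfold fN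
    rw [h1, Set.ncard_coe_finset, card_filter]
    push_cast
    refine sum_congr rfl (fun m _ => ?_)
    unfold ind
    by_cases h : ω ∈ all A (ft S f m)
    · rw [if_pos h, Set.indicator_of_mem h]
    · rw [if_neg h, Set.indicator_of_notMem h]
  have h3 : ∑ m ∈ Ico a b, ind A (ft S f m) ω = ∑ m ∈ (Ico a b).filter (fun m => y ≤ m), ind A (ft S f m) ω +
      ∑ m ∈ (Ico a b).filter (fun m => ¬ y ≤ m), ind A (ft S f m) ω := (sum_filter_add_sum_filter_not _ _ _).symm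
  have h4 : nm A ((Ico a b).filter (fun m => y ≤ m)) (fun m => ft S f m) ω =
      ∑ m ∈ (Ico a b).filter (fun m => y ≤ m), ind A (ft S f m) ω := rfl
  rw [h2, h3, h4, add_sub_cancel_left, abs_of_nonneg (sum_nonneg (fun m _ => ind_nonneg _ _))]
  have hcard : ((Ico a b).filter (fun m => ¬ y ≤ m)).card ≤ y := by
    have e1 : (Ico a b).filter (fun m => ¬ y ≤ m) ⊆ range y := by
      intro m hm
      rw [mem_filter] at hm
      rw [mem_range]
      omega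
    refine (card_le_card e1).trans ?_
    rw [card_range]
  refine (sum_le_sum (g := fun _ => (1 : ℝ)) (fun m _ => ind_le_one _ _)).trans ?_
  rw [sum_const, nsmul_eq_mul, mul_one]
  exact_mod_cast hcard

/-- The normalized deviation. -/
noncomputable def fD (Q : ℕ) (A : Set ℕ) (S : Fin r → Finset σ) (f : ℕ → Fin r → σ → ℕ → ℕ) (a b : ℕ → Fin r → ℕ) (n : ℕ)
    (i : Fin r) : ℝ :=
  (fN A (S i) (f n i) (a n i) (b n i) - fex Q (S i) (f n i) (a n i) (b n i)) /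
    Real.sqrt (2 * fex Q (S i) (f n i) (a n i) (b n i) * Real.log n)

/-- **The law of the numbers of values.** -/
theorem f_law (hA : IsModel μ (level Q) A) (hG : FD Q S f N a b M δ) (hQ : 1 ≤ Q) (hδ : 0 < δ) (hδ1 : δ ≤ 1 / 2) :
    ∀ᵐ ω ∂μ, Law (fD Q (A ω) S f a b) := by
  have hS := fs_psys hG hQ hδ hδ1
  filter_upwards [fs_law hA hG hQ hδ hδ1] with ω hω
  refine hω.congr (fun i => ?_)
  rw [Metric.tendsto_nhds]
  intro ε hε
  filter_upwards [hS.le, gfacts hG.gd hQ hδ hδ1 (fR S) (1 / ε), hS.lim.eventually_ge_atTop 1] with n h1 h2 h3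
  obtain ⟨f1, f2, f3, f4, f5, f6⟩ := h2
  have h4 := h1 i
  obtain ⟨E, hE⟩ : ∃ E, E = fes Q S f a b n i := ⟨_, rfl⟩
  have hy0 : (0 : ℝ) ≤ gy δ N n := Nat.cast_nonneg _
  have hK : 0 < 1 / ε * ((gy δ N n : ℝ) + 1) := by positivity
  rw [← hE] at h4
  have hE1 : (1 / ε * ((gy δ N n : ℝ) + 1)) ^ 2 ≤ E := f3.trans h4
  have hE0 : 0 < E := lt_of_lt_of_le (by positivity) hE1
  have h5 : 1 / ε * ((gy δ N n : ℝ) + 1) < Real.sqrt (2 * E * Real.log n) := by
    refine Real.lt_sqrt_of_sq_lt ?_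
    nlinarith
  have h6 : 0 < Real.sqrt (2 * E * Real.log n) := lt_trans hK h5
  have h7 := fN_close (y := gy δ N n) A (S i) (f n i) (a := a n i) (b := b n i) ω
  have h8 : fD Q (A ω) S f a b n i -
      dev A (fJs N a b δ) (fTs S f) (fes Q S f a b) (fun n : ℕ => Real.log n) n i ω =
      (fN (A ω) (S i) (f n i) (a n i) (b n i) - nm A ((Ico (a n i) (b n i)).filter (fun m => gy δ N n ≤ m))
        (fun m => ft (S i) (f n i) m) ω) / Real.sqrt (2 * E * Real.log n) := by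
    rw [hE]
    unfold fD dev fJs fTs fes
    rw [← sub_div]
    congr 1
    ring
  rw [Real.dist_eq, sub_zero, h8, abs_div, abs_of_pos h6, div_lt_iff₀ h6]
  refine lt_of_le_of_lt h7 ?_
  have h9 := mul_lt_mul_of_pos_left h5 hε
  have h10 : ε * (1 / ε * ((gy δ N n : ℝ) + 1)) = (gy δ N n : ℝ) + 1 := by field_simp
  rw [h10] at h9
  linarith

end

end Pool.Agent.Q106.UV
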