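import Pool.Agent.Q106.CH.Blk2

/-!
# Exponential moments of sums of local functions of different sizes
-/

set_option autoImplicit false

namespace Pool.Agent.Q106.UV

open Finset MeasureTheory ProbabilityTheory Filter Pool.Agent.Q120.GM Pool.Agent.Q106.UR Pool.Agent.Q106.MD
  Pool.Agent.Q106.CH

variable {Ω : Type*} [MeasurableSpace Ω] {μ : Measure Ω} [IsProbabilityMeasure μ] {ι κ : Type*} [DecidableEq ι]
  [DecidableEq κ] {p : ι → ℝ} {A : Ω → Set ι} {U : κ → Finset ι} {Y : κ → Ω → ℝ} {c : κ → ℝ}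

theorem exp_two {x b t φ φ' : ℝ} (hφ0 : 0 < φ) (hst : |φ' - φ * (1 + x)| ≤ b * φ) (hb0 : 0 ≤ b) (hbt : b ≤ 28 * t)
    (hy2 : 2 * (|x| + b) ^ 2 ≤ t) (ht : 0 ≤ t) (hsm : |x| + b ≤ 1 / 2) :
    φ * Real.exp (x - 29 * t) ≤ φ' ∧ φ' ≤ φ * Real.exp (x + 29 * t) := by
  rw [abs_le] at hst
  have hx := neg_abs_le x
  have hx' := le_abs_self x
  constructor
  · have e1 : φ * (1 + (x - b)) ≤ φ' := by linarith
    have e3 := exp_low (show -(1 / 2) ≤ x - b by linarith)
    have e4 : 2 * (x - b) ^ 2 ≤ t := by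
      have e5 : (x - b) ^ 2 ≤ (|x| + b) ^ 2 := by
        rw [← sq_abs (x - b)]
        refine pow_le_pow_left₀ (abs_nonneg _) ?_ 2
        rw [abs_le]
        constructor <;> linarith
      linarith
    have e6 : Real.exp (x - 29 * t) ≤ 1 + (x - b) := le_trans (Real.exp_le_exp.2 (by linarith)) e3
    exact (mul_le_mul_of_nonneg_left e6 hφ0.le).trans e1
  · have e1 : φ' ≤ φ * (1 + (x + b)) := by linarith
    have e2 : 1 + (x + b) ≤ Real.exp (x + 29 * t) := by
      have e3 := Real.add_one_le_exp (x + b)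
      have e4 : Real.exp (x + b) ≤ Real.exp (x + 29 * t) := Real.exp_le_exp.2 (by linarith)
      linarith
    exact e1.trans (mul_le_mul_of_nonneg_left e2 hφ0.le)

/-- **The exponential moments, with terms of different sizes.** -/
theorem mgfN (hA : IsModel μ p A) (hY : ∀ j, Measurable[F A (U j : Set ι)] (Y j)) (hb : ∀ j ω, |Y j ω| ≤ c j)
    (h0 : ∀ j, ∫ ω, Y j ω ∂μ = 0) {D : ℝ} (hD : 1 ≤ D) (J : Finset κ) (hh : ∀ j ∈ J, 56 * (D * c j) ≤ 1)
    (hdeg : ∀ j ∈ J, ((nb U J j).card : ℝ) ≤ D) :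
    Real.exp (VV μ Y J / 2 - 29 * (D ^ 2 * ∑ j ∈ J, c j ^ 3)) ≤ ∫ ω, Real.exp (SS Y J ω) ∂μ ∧
      ∫ ω, Real.exp (SS Y J ω) ∂μ ≤ Real.exp (VV μ Y J / 2 + 29 * (D ^ 2 * ∑ j ∈ J, c j ^ 3)) := by
  have hΩ : Nonempty Ω := by
    by_contra hcon
    rw [not_nonempty_iff] at hcon
    have h1 : μ Set.univ = 1 := measure_univ
    rw [Set.univ_eq_empty_iff.2 hcon, measure_empty] at h1
    exact zero_ne_one h1
  obtain ⟨ω₀⟩ := hΩ
  have hc0 : ∀ j, 0 ≤ c j := fun j => (abs_nonneg _).trans (hb j ω₀)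
  have hYm : ∀ j, Measurable (Y j) := fun j => (hY j).mono (F_le hA _) le_rfl
  induction J using Finset.induction_on_max_value c with
  | empty => simp [VV, SS]
  | insert a J ha hmax ih =>
    have hnb : ∀ j ∈ insert a J, ((nb U J j).card : ℝ) ≤ D := by
      intro j hj
      refine le_trans ?_ (hdeg j hj)
      have : (nb U J j).card ≤ (nb U (insert a J) j).card :=
        card_le_card (filter_subset_filter _ (subset_insert _ _))
      exact_mod_cast this
    obtain ⟨ih1, ih2⟩ := ih (fun j hj => hh j (mem_insert_of_mem hj)) (fun j hj => hnb j (mem_insert_of_mem hj))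
    have hle : ∀ j ∈ insert a J, c j ≤ c a := by
      intro j hj
      rw [mem_insert] at hj
      rcases hj with rfl | hj
      · exact le_rfl
      · exact hmax j hj
    rcases (hc0 a).eq_or_lt with hca | hca
    · have hz : ∀ j ∈ insert a J, ∀ ω, Y j ω = 0 := by
        intro j hj ω
        have h1 := hb j ω
        have h2 := hle j hj
        rw [← hca] at h2
        exact abs_nonpos_iff.1 (h1.trans h2)
      have hcz : ∀ j ∈ insert a J, c j = 0 := fun j hj => le_antisymm ((hle j hj).trans hca.symm.le) (hc0 j)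
      have e1 : ∀ ω, SS Y (insert a J) ω = 0 := fun ω => sum_eq_zero (fun j hj => hz j hj ω)
      have e2 : VV μ Y (insert a J) = 0 := by
        refine sum_eq_zero (fun i hi => sum_eq_zero (fun j _ => ?_))
        have : ∀ ω, Y i ω * Y j ω = 0 := fun ω => by rw [hz i hi ω, zero_mul]
        simp_rw [this]
        simp
      have e3 : ∑ j ∈ insert a J, c j ^ 3 = 0 := sum_eq_zero (fun j hj => by rw [hcz j hj]; ring)
      simp_rw [e1]
      rw [e2, e3]
      simp
    · obtain ⟨h, hhd⟩ : ∃ h, h = c a := ⟨_, rfl⟩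
      rw [← hhd] at hca hle
      obtain ⟨Z, hZ⟩ : ∃ Z : κ → Ω → ℝ, Z = fun j ω => if j ∈ insert a J then Y j ω / h else 0 := ⟨_, rfl⟩
      have hZm : ∀ j, Measurable[F A (U j : Set ι)] (Z j) := by
        intro j
        rw [hZ]
        let _ : MeasurableSpace Ω := F A (U j : Set ι)
        simp only
        split_ifs
        · exact (hY j).div_const _
        · exact measurable_const
      have hZb : ∀ j ω, |Z j ω| ≤ 1 := by
        intro j ω
        rw [hZ]
        simp only
        split_ifs with hj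
        · rw [abs_div, abs_of_pos hca, div_le_one hca]
          exact (hb j ω).trans (hle j hj)
        · simp
      have hZ0 : ∀ j, ∫ ω, Z j ω ∂μ = 0 := by
        intro j
        rw [hZ]
        simp only
        split_ifs
        · rw [integral_div, h0, zero_div]
        · simp
      have hZS : ∀ K : Finset κ, K ⊆ insert a J → ∀ ω, h * SS Z K ω = SS Y K ω := by
        intro K hK ω
        unfold SS
        rw [mul_sum]
        refine sum_congr rfl (fun j hj => ?_)
        rw [hZ]
        simp only [if_pos (hK hj)]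
        field_simp
      have hhD := hh a (mem_insert_self _ _)
      rw [← hhd] at hhD
      have hst := step hA hZm hZb hZ0 (h := h) hD (by rw [abs_of_pos hca]; nlinarith) ha hnb
      rw [abs_of_pos hca] at hst
      simp_rw [hZS (insert a J) subset_rfl, hZS J (subset_insert _ _)] at hst
      obtain ⟨v, hv⟩ : ∃ v, v = ∫ ω, Y a ω * Y a ω ∂μ + 2 * ∑ i ∈ J, ∫ ω, Y i ω * Y a ω ∂μ := ⟨_, rfl⟩
      have hZZ : ∀ i ∈ insert a J, ∫ ω, Z i ω * Z a ω ∂μ = (∫ ω, Y i ω * Y a ω ∂μ) / h ^ 2 := by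
        intro i hi
        rw [← integral_div]
        refine integral_congr_ae (Eventually.of_forall (fun ω => ?_))
        rw [hZ]
        simp only [if_pos hi, if_pos (mem_insert_self a J)]
        field_simp
      have hcovZ : |∫ ω, Z a ω * Z a ω ∂μ + 2 * ∑ i ∈ J, ∫ ω, Z i ω * Z a ω ∂μ| ≤ 3 * D := by
        have hZm' : ∀ j, Measurable (Z j) := fun j => (hZm j).mono (F_le hA _) le_rfl
        have hYY1 : ∀ i j ω, |Z i ω * Z j ω| ≤ 1 := by
          intro i j ω
          rw [abs_mul]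
          have e1 := hZb i ω
          have e2 := hZb j ω
          have e3 := abs_nonneg (Z i ω)
          have e4 := abs_nonneg (Z j ω)
          nlinarith
        have hcov : ∀ i j, |∫ ω, Z i ω * Z j ω ∂μ| ≤ 1 := by
          intro i j
          refine (abs_integral_le_integral_abs).trans ?_
          have e1 : ∫ ω, |Z i ω * Z j ω| ∂μ ≤ ∫ _ω, (1 : ℝ) ∂μ :=
            integral_mono (int_bdd ((hZm' i).mul (hZm' j)) 1 (hYY1 i j)).abs (integrable_const 1) (hYY1 i j)
          simpa using e1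
        have e1 : |∑ i ∈ J, ∫ ω, Z i ω * Z a ω ∂μ| ≤ D := by
          have e2 : ∑ i ∈ J, ∫ ω, Z i ω * Z a ω ∂μ = ∑ i ∈ nb U J a, ∫ ω, Z i ω * Z a ω ∂μ := by
            refine (sum_subset (filter_subset _ _) (fun i hi hiN => ?_)).symm
            have e3 : Disjoint (U i) (U a) := by
              unfold nb at hiN
              rw [mem_filter, not_and, not_not] at hiN
              exact hiN hi
            rw [int_mul hA (S := (U i : Set ι)) (T := (U a : Set ι)) (Finset.disjoint_coe.2 e3) (hZm i) (hZm a), hZ0,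
              zero_mul]
          rw [e2]
          refine (abs_sum_le_sum_abs _ _).trans ((sum_le_sum (fun i _ => hcov i a)).trans ?_)
          rw [sum_const, nsmul_eq_mul, mul_one]
          exact hnb a (mem_insert_self _ _)
        have e3 := hcov a a
        refine (abs_add_le _ _).trans ?_
        rw [abs_mul, abs_two]
        linarith
      have hvZ : ∫ ω, Z a ω * Z a ω ∂μ + 2 * ∑ i ∈ J, ∫ ω, Z i ω * Z a ω ∂μ = v / h ^ 2 := by
        rw [hZZ a (mem_insert_self _ _), sum_congr rfl (fun i hi => hZZ i (mem_insert_of_mem hi)), hv, ← sum_div]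
        ring
      rw [hvZ] at hst hcovZ
      have hh2 : h ^ 2 / 2 * (v / h ^ 2) = v / 2 := by field_simp
      rw [hh2] at hst
      have hxb : |v / 2| ≤ 3 / 2 * (D * h ^ 2) := by
        rw [abs_div, abs_of_nonneg (sq_nonneg h), div_le_iff₀ (by positivity)] at hcovZ
        rw [abs_div, abs_two]
        linarith
      obtain ⟨φ, hφ⟩ : ∃ φ, φ = ∫ ω, Real.exp (SS Y J ω) ∂μ := ⟨_, rfl⟩
      obtain ⟨φ', hφ'⟩ : ∃ φ', φ' = ∫ ω, Real.exp (SS Y (insert a J) ω) ∂μ := ⟨_, rfl⟩
      have hφ0 : 0 < φ := by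
        rw [hφ]
        have := pos_exp hA hZm hZb J h
        simpa only [hZS J (subset_insert _ _)] using this
      rw [← hφ, ← hφ'] at hst
      rw [← hφ] at ih1 ih2
      rw [← hφ']
      obtain ⟨t, ht⟩ : ∃ t, t = D ^ 2 * h ^ 3 := ⟨_, rfl⟩
      have ht0 : 0 ≤ t := by rw [ht]; positivity
      rw [← ht] at hst
      have hDh : 0 ≤ D * h ^ 2 := by positivity
      have hb1 : 28 * t ≤ 1 / 2 * (D * h ^ 2) := by
        have e1 : 28 * t = (28 * (D * h)) * (D * h ^ 2) := by rw [ht]; ring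
        rw [e1]
        exact mul_le_mul_of_nonneg_right (by linarith) hDh
      have hh1 : h ≤ 1 / 56 := by nlinarith
      have hsm : D * h ^ 2 ≤ 1 / 56 * h := by nlinarith
      have hsum : |v / 2| + 28 * t ≤ 2 * (D * h ^ 2) := by linarith
      have hy2 : 2 * (|v / 2| + 28 * t) ^ 2 ≤ t := by
        have e2 : 0 ≤ |v / 2| + 28 * t := by positivity
        have e3 : (|v / 2| + 28 * t) ^ 2 ≤ (2 * (D * h ^ 2)) ^ 2 := pow_le_pow_left₀ e2 hsum 2
        have e4 : 2 * (2 * (D * h ^ 2)) ^ 2 = (8 * h) * t := by rw [ht]; ring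
        have e5 : (8 * h) * t ≤ 1 * t := mul_le_mul_of_nonneg_right (by linarith) ht0
        linarith
      obtain ⟨g1, g2⟩ := exp_two (x := v / 2) (b := 28 * t) (t := t) hφ0 hst (by positivity) le_rfl hy2 ht0 (by nlinarith)
      rw [VV_insert Y ha, ← hv, sum_insert ha, ← hhd]
      constructor
      · have e7 : Real.exp ((VV μ Y J + v) / 2 - 29 * (D ^ 2 * (h ^ 3 + ∑ j ∈ J, c j ^ 3))) =
            Real.exp (VV μ Y J / 2 - 29 * (D ^ 2 * ∑ j ∈ J, c j ^ 3)) * Real.exp (v / 2 - 29 * t) := by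
          rw [← Real.exp_add, ht]
          congr 1
          ring
        rw [e7]
        exact (mul_le_mul_of_nonneg_right ih1 (Real.exp_pos _).le).trans g1
      · have e7 : Real.exp ((VV μ Y J + v) / 2 + 29 * (D ^ 2 * (h ^ 3 + ∑ j ∈ J, c j ^ 3))) =
            Real.exp (VV μ Y J / 2 + 29 * (D ^ 2 * ∑ j ∈ J, c j ^ 3)) * Real.exp (v / 2 + 29 * t) := by
          rw [← Real.exp_add, ht]
          congr 1
          ring
        rw [e7]
        exact g2.trans (mul_le_mul_of_nonneg_right ih2 (Real.exp_pos _).le)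

end Pool.Agent.Q106.UV
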