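import Pool.Agent.Q106.UV.Chaos
import Pool.Agent.Q106.CH.Mk

/-!
# Blocks of normalized orthogonal sums with small overlaps
-/

set_option autoImplicit false

namespace Pool.Agent.Q106.UV

open Finset MeasureTheory ProbabilityTheory Filter Pool.Agent.Q120.GM Pool.Agent.Q106.UR Pool.Agent.Q106.MD
  Pool.Agent.Q106.CH

variable {Ω : Type*} [MeasurableSpace Ω] {μ : Measure Ω} [IsProbabilityMeasure μ] {ι κ K : Type*} [DecidableEq ι]
  [DecidableEq κ] [DecidableEq K] {p : ι → ℝ} {A : Ω → Set ι} {r : ℕ} {J : K → Fin r → Finset κ}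
  {T : K → Fin r → κ → Finset ι}

/-- The common part of the families `n` and `n'`. -/
noncomputable def Gc (p : ι → ℝ) (J : K → Fin r → Finset κ) (T : K → Fin r → κ → Finset ι) (n n' : K) : ℝ :=
  ∑ x ∈ univ.sigma (J n), ∑ y ∈ univ.sigma (J n'), if T n x.1 x.2 = T n' y.1 y.2 then vT p (T n x.1 x.2) else 0

omit [DecidableEq κ] [DecidableEq K] in
theorem Gc_nonneg (hA : IsModel μ p A) (n n' : K) : 0 ≤ Gc p J T n n' := by
  refine sum_nonneg (fun x _ => sum_nonneg (fun y _ => ?_))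
  split_ifs
  · exact vT_nonneg hA _
  · exact le_rfl

/-- The hypotheses on a block. -/
structure UB (p : ι → ℝ) (J : K → Fin r → Finset κ) (T : K → Fin r → κ → Finset ι) (N : Finset K) (D L e : ℝ)
    (b : Fin r → ℝ) (h : K → ℝ) : Prop where
  ne : ∀ n ∈ N, ∀ i, ∀ j ∈ J n i, (T n i j).Nonempty
  inj : ∀ n ∈ N, ∀ i i' j j', j ∈ J n i → j' ∈ J n i' → T n i j = T n i' j' → i = i' ∧ j = j'
  oneD : 1 ≤ D
  deg : ∀ n ∈ N, ∀ n' ∈ N, ∀ i, ∀ j ∈ J n i,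
      (((univ.sigma (J n')).filter (fun x => ¬ Disjoint (T n' x.1 x.2) (T n i j))).card : ℝ) ≤ D
  pos : 0 < L
  var : ∀ n ∈ N, ∀ i, 0 < Vs p J T n i
  cf : ∀ n ∈ N, ∀ i, b i * Real.sqrt (L / (2 * Vs p J T n i)) ≤ h n
  hD : ∀ n ∈ N, 112 * (D * h n) ≤ 1
  h0 : ∀ n ∈ N, 0 ≤ h n
  err : ∀ n ∈ N, 116 * (D ^ 2 * h n ^ 3) * ((univ.sigma (J n)).card : ℝ) ≤ e / 8
  e0 : 0 ≤ e
  e1 : e ≤ 1 / 2
  crs : ∀ n ∈ N, ∀ n' ∈ N, n ≠ n' → h n * h n' * Gc p J T n n' ≤ e / 8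

/-- The exponential moments of the linear combinations of one or two families. -/
theorem sys_mgfN (hA : IsModel μ p A) (P : Finset K) (c : K → Fin r → ℝ) (h : K → ℝ) {D : ℝ} (hh : ∀ n ∈ P, 0 ≤ h n)
    (hc : ∀ n ∈ P, ∀ i, |c n i| ≤ h n) (hP : 1 ≤ P.card) (hP2 : P.card ≤ 2) (hD : 1 ≤ D)
    (hhD : ∀ n ∈ P, 112 * (D * h n) ≤ 1)
    (hne : ∀ n ∈ P, ∀ i, ∀ j ∈ J n i, (T n i j).Nonempty)
    (hdeg : ∀ n ∈ P, ∀ n' ∈ P, ∀ i, ∀ j ∈ J n i,
      (((univ.sigma (J n')).filter (fun x => ¬ Disjoint (T n' x.1 x.2) (T n i j))).card : ℝ) ≤ D) {W : ℝ}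
    (hW : W = ∑ n ∈ P, ∑ n' ∈ P, ∑ x ∈ univ.sigma (J n), ∑ y ∈ univ.sigma (J n'),
      if T n x.1 x.2 = T n' y.1 y.2 then c n x.1 * c n' y.1 * vT p (T n x.1 x.2) else 0) :
    Real.exp (W / 2 - ∑ n ∈ P, 116 * (D ^ 2 * h n ^ 3) * ((univ.sigma (J n)).card : ℝ)) ≤
      ∫ ω, Real.exp (∑ n ∈ P, ∑ i, c n i * Qs p A J T n i ω) ∂μ ∧
    ∫ ω, Real.exp (∑ n ∈ P, ∑ i, c n i * Qs p A J T n i ω) ∂μ ≤
      Real.exp (W / 2 + ∑ n ∈ P, 116 * (D ^ 2 * h n ^ 3) * ((univ.sigma (J n)).card : ℝ)) := by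
  obtain ⟨J', hJ'⟩ : ∃ J' : Finset (Σ _ : K, Σ _ : Fin r, κ), J' = P.sigma (fun n => univ.sigma (J n)) := ⟨_, rfl⟩
  have hmem : ∀ x : (Σ _ : K, Σ _ : Fin r, κ), x ∈ J' ↔ x.1 ∈ P ∧ x.2.2 ∈ J x.1 x.2.1 := by
    intro x
    rw [hJ', mem_sigma, mem_sigma]
    simp
  have hPc : (1 : ℝ) ≤ P.card := by exact_mod_cast hP
  have hPc2 : (P.card : ℝ) ≤ 2 := by exact_mod_cast hP2
  have h1 := chaosN hA J' (fun x => T x.1 x.2.1 x.2.2) (fun x => c x.1 x.2.1) (D := D * 2) (by linarith)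
    (fun x hx => by
      have hx1 := ((hmem x).1 hx).1
      have e1 := hc x.1 hx1 x.2.1
      have e2 := hhD x.1 hx1
      have e3 : D * |c x.1 x.2.1| ≤ D * h x.1 := mul_le_mul_of_nonneg_left e1 (by linarith)
      have e4 : 56 * (D * 2 * |c x.1 x.2.1|) = 112 * (D * |c x.1 x.2.1|) := by ring
      rw [e4]
      linarith)
    (fun x hx => hne x.1 ((hmem x).1 hx).1 _ _ ((hmem x).1 hx).2)
    (fun x hx => by
      obtain ⟨a1, a2⟩ := (hmem x).1 hx
      have e1 : ((nb (fun x => T x.1 x.2.1 x.2.2) J' x).card : ℝ) =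
          ∑ n' ∈ P, (((univ.sigma (J n')).filter (fun y => ¬ Disjoint (T n' y.1 y.2) (T x.1 x.2.1 x.2.2))).card : ℝ) := by
        unfold nb
        rw [card_filter, hJ', sum_sigma]
        push_cast
        refine sum_congr rfl (fun n' _ => ?_)
        rw [card_filter]
        push_cast
        rfl
      rw [e1]
      refine (sum_le_sum (fun n' hn' => hdeg x.1 a1 n' hn' x.2.1 x.2.2 a2)).trans ?_
      rw [sum_const, nsmul_eq_mul]
      nlinarith)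
    rfl
  have e2 : ∀ ω, ∑ x ∈ J', c x.1 x.2.1 * xi p A (T x.1 x.2.1 x.2.2) ω = ∑ n ∈ P, ∑ i, c n i * Qs p A J T n i ω := by
    intro ω
    rw [hJ', sum_sigma]
    refine sum_congr rfl (fun n _ => ?_)
    rw [sum_sigma]
    refine sum_congr rfl (fun i _ => ?_)
    unfold Qs
    rw [mul_sum]
  have e3 : ∑ x ∈ J', ∑ y ∈ J', (if T x.1 x.2.1 x.2.2 = T y.1 y.2.1 y.2.2 then
      c x.1 x.2.1 * c y.1 y.2.1 * vT p (T x.1 x.2.1 x.2.2) else 0) = W := by
    rw [hW, hJ', sum_sigma]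
    refine sum_congr rfl (fun n _ => ?_)
    simp_rw [sum_sigma P]
    rw [sum_comm]
  have e4 : (D * 2) ^ 2 * ∑ x ∈ J', |c x.1 x.2.1| ^ 3 ≤ 4 * (D ^ 2 * ∑ n ∈ P, h n ^ 3 * ((univ.sigma (J n)).card : ℝ)) := by
    have e5 : ∑ x ∈ J', |c x.1 x.2.1| ^ 3 ≤ ∑ n ∈ P, h n ^ 3 * ((univ.sigma (J n)).card : ℝ) := by
      rw [hJ', sum_sigma]
      refine sum_le_sum (fun n hn => ?_)
      rw [mul_comm, ← nsmul_eq_mul, ← sum_const]
      exact sum_le_sum (fun x _ => pow_le_pow_left₀ (abs_nonneg _) (hc n hn x.1) 3)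
    have e6 := mul_le_mul_of_nonneg_left e5 (by positivity : 0 ≤ D ^ 2)
    have e7 : (D * 2) ^ 2 * ∑ x ∈ J', |c x.1 x.2.1| ^ 3 = 4 * (D ^ 2 * ∑ x ∈ J', |c x.1 x.2.1| ^ 3) := by ring
    rw [e7]
    linarith
  have e8 : ∑ n ∈ P, 116 * (D ^ 2 * h n ^ 3) * ((univ.sigma (J n)).card : ℝ) =
      29 * (4 * (D ^ 2 * ∑ n ∈ P, h n ^ 3 * ((univ.sigma (J n)).card : ℝ))) := by
    rw [mul_sum, mul_sum, mul_sum]
    exact sum_congr rfl (fun n _ => by ring)
  simp_rw [e2] at h1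
  rw [e3] at h1
  rw [e8]
  refine ⟨(Real.exp_le_exp.2 ?_).trans h1.1, h1.2.trans (Real.exp_le_exp.2 ?_)⟩
  · linarith
  · linarith

omit [DecidableEq K] [DecidableEq κ] in
/-- The diagonal part. -/
theorem diag {c : Fin r → ℝ} {n : K}
    (hinj : ∀ i i' j j', j ∈ J n i → j' ∈ J n i' → T n i j = T n i' j' → i = i' ∧ j = j') :
    ∑ x ∈ univ.sigma (J n), ∑ y ∈ univ.sigma (J n),
      (if T n x.1 x.2 = T n y.1 y.2 then c x.1 * c y.1 * vT p (T n x.1 x.2) else 0) =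
    ∑ i, c i ^ 2 * Vs p J T n i := by
  classical
  have h1 : ∀ x ∈ univ.sigma (J n), ∑ y ∈ univ.sigma (J n),
      (if T n x.1 x.2 = T n y.1 y.2 then c x.1 * c y.1 * vT p (T n x.1 x.2) else 0) =
      c x.1 ^ 2 * vT p (T n x.1 x.2) := by
    intro x hx
    rw [sum_eq_single x]
    · rw [if_pos rfl]
      ring
    · intro y hy hyx
      rw [if_neg]
      intro h
      rw [mem_sigma] at hx hy
      obtain ⟨h2, h3⟩ := hinj x.1 y.1 x.2 y.2 hx.2 hy.2 h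
      apply hyx
      obtain ⟨x1, x2⟩ := x
      obtain ⟨y1, y2⟩ := y
      simp only at h2 h3
      subst h2
      subst h3
      rfl
    · intro h
      exact absurd hx h
  rw [sum_congr rfl h1, sum_sigma]
  refine sum_congr rfl (fun i _ => ?_)
  unfold Vs
  rw [mul_sum]

omit [DecidableEq K] [DecidableEq κ] in
/-- The part off the diagonal. -/
theorem offdiag (hA : IsModel μ p A) {c c' : Fin r → ℝ} {h h' : ℝ} {n n' : K} (hc : ∀ i, |c i| ≤ h)
    (hc' : ∀ i, |c' i| ≤ h') (hh : 0 ≤ h) :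
    ∑ x ∈ univ.sigma (J n), ∑ y ∈ univ.sigma (J n'),
      (if T n x.1 x.2 = T n' y.1 y.2 then c x.1 * c' y.1 * vT p (T n x.1 x.2) else 0) ≤ h * h' * Gc p J T n n' := by
  unfold Gc
  rw [mul_sum]
  refine sum_le_sum (fun x _ => ?_)
  rw [mul_sum]
  refine sum_le_sum (fun y _ => ?_)
  split_ifs
  · refine mul_le_mul_of_nonneg_right ?_ (vT_nonneg hA _)
    refine (le_abs_self _).trans ?_
    rw [abs_mul]
    exact mul_le_mul (hc _) (hc' _) (abs_nonneg _) hh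
  · rw [mul_zero]

omit [DecidableEq K] [DecidableEq κ] in
theorem Gc_symm (n n' : K) : Gc p J T n n' = Gc p J T n' n := by
  unfold Gc
  rw [sum_comm]
  refine sum_congr rfl (fun y _ => sum_congr rfl (fun x _ => ?_))
  by_cases h : T n x.1 x.2 = T n' y.1 y.2
  · rw [if_pos h, if_pos h.symm, h]
  · rw [if_neg h, if_neg (fun h' => h h'.symm)]

theorem UB.mg (hA : IsModel μ p A) {N : Finset K} {D L e : ℝ} {b : Fin r → ℝ} {h : K → ℝ}
    (hB : UB p J T N D L e b h) : MG μ N (dq p A J T L) L e b := by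
  classical
  have he0 := hB.e0
  have hcf : ∀ n ∈ N, ∀ θ : Fin r → ℝ, (∀ i, |θ i| ≤ b i) → ∀ i, |Pool.Agent.Q106.CH.cf p J T L θ n i| ≤ h n := by
    intro n hn θ hθ i
    unfold Pool.Agent.Q106.CH.cf
    rw [abs_mul, abs_of_nonneg (Real.sqrt_nonneg _)]
    exact (mul_le_mul_of_nonneg_right (hθ i) (Real.sqrt_nonneg _)).trans (hB.cf n hn i)
  have hcd : ∀ n ∈ N, ∀ (θ : Fin r → ℝ) ω, ∑ i, Pool.Agent.Q106.CH.cf p J T L θ n i * Qs p A J T n i ω =
      L * ∑ i, θ i * dq p A J T L n i ω := by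
    intro n hn θ ω
    rw [mul_sum]
    exact sum_congr rfl (fun i _ => cf_dq hB.pos (hB.var n hn i) θ ω)
  have hcs : ∀ n ∈ N, ∀ θ : Fin r → ℝ, (∑ i, Pool.Agent.Q106.CH.cf p J T L θ n i ^ 2 * Vs p J T n i) / 2 = L * ((∑ i, θ i ^ 2) / 4) := by
    intro n hn θ
    rw [sum_congr rfl (fun i _ => cf_sq hB.pos (hB.var n hn i) θ), ← mul_sum, ← sum_div]
    ring
  refine ⟨fun n i => dq_meas hA L n i, fun n => ?_, hB.pos, hB.e0, hB.e1, fun n hn θ hθ => ?_,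
    fun n hn n' hn' hnn θ hθ => ?_⟩
  · refine ⟨∑ i, ((J n i).card : ℝ) / Real.sqrt (2 * Vs p J T n i * L), fun i ω => ?_⟩
    have h1 : |dq p A J T L n i ω| ≤ ((J n i).card : ℝ) / Real.sqrt (2 * Vs p J T n i * L) := by
      unfold dq
      rw [abs_div, abs_of_nonneg (Real.sqrt_nonneg _)]
      exact div_le_div_of_nonneg_right (Qs_abs hA n i ω) (Real.sqrt_nonneg _)
    exact h1.trans (single_le_sum (f := fun i => ((J n i).card : ℝ) / Real.sqrt (2 * Vs p J T n i * L))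
      (fun i _ => by positivity) (mem_univ i))
  · have hs : ∀ m ∈ ({n} : Finset K), m ∈ N := by
      intro m hm
      rw [mem_singleton] at hm
      rw [hm]
      exact hn
    have h1 := sys_mgfN hA {n} (Pool.Agent.Q106.CH.cf p J T L θ) h (D := D) (fun m hm => hB.h0 m (hs m hm))
      (fun m hm i => hcf m (hs m hm) θ hθ i) (by simp) (by simp) hB.oneD (fun m hm => hB.hD m (hs m hm))
      (fun m hm => hB.ne m (hs m hm)) (fun m hm m' hm' => hB.deg m (hs m hm) m' (hs m' hm')) rfl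
    simp only [sum_singleton] at h1
    rw [diag (hB.inj n hn)] at h1
    simp_rw [hcd n hn] at h1
    rw [hcs n hn] at h1
    have h2 := hB.err n hn
    exact ⟨(Real.exp_le_exp.2 (by linarith)).trans h1.1, h1.2.trans (Real.exp_le_exp.2 (by linarith))⟩
  · have hs : ∀ m ∈ ({n, n'} : Finset K), m ∈ N := by
      intro m hm
      rw [mem_insert, mem_singleton] at hm
      rcases hm with rfl | rfl
      · exact hn
      · exact hn'
    have h1 := (sys_mgfN hA {n, n'} (Pool.Agent.Q106.CH.cf p J T L θ) h (D := D) (fun m hm => hB.h0 m (hs m hm))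
      (fun m hm i => hcf m (hs m hm) θ hθ i) (by rw [card_pair hnn]; norm_num) (by rw [card_pair hnn]) hB.oneD
      (fun m hm => hB.hD m (hs m hm)) (fun m hm => hB.ne m (hs m hm))
      (fun m hm m' hm' => hB.deg m (hs m hm) m' (hs m' hm')) rfl).2
    simp_rw [sum_pair hnn] at h1
    rw [diag (hB.inj n hn), diag (hB.inj n' hn')] at h1
    simp_rw [hcd n hn, hcd n' hn'] at h1
    have h2 := offdiag (p := p) (J := J) (T := T) (n := n) (n' := n') hA (hcf n hn θ hθ) (hcf n' hn' θ hθ) (hB.h0 n hn)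
    have h3 := offdiag (p := p) (J := J) (T := T) (n := n') (n' := n) hA (hcf n' hn' θ hθ) (hcf n hn θ hθ) (hB.h0 n' hn')
    have h4 := hB.crs n hn n' hn' hnn
    rw [Gc_symm n' n, mul_comm (h n') (h n)] at h3
    have h5 := hB.err n hn
    have h6 := hB.err n' hn'
    have h7 := hcs n hn θ
    have h8 := hcs n' hn' θ
    refine h1.trans (Real.exp_le_exp.2 ?_)
    linarith

end Pool.Agent.Q106.UV
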